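import Pool.Agent.L5helper2.RS.S6

/-! Project BH (helper2): the discrepancy of products of nearly constant periodic functions with moving levels. -/

set_option autoImplicit false

namespace Pool.Agent.L5helper2.BH

open Finset
open Pool.Agent.L5helper2.RS (sum_range_per per_mod lam lam_bound crt_card)

/-- partial summation with a monotone factor -/
lemma abel_mono {e H : ℕ → ℝ} {c M : ℝ} {y : ℕ} (hc : ∀ x, y ≤ x → |∑ n ∈ Ioc y x, e n| ≤ c)
    (hH : Monotone H) (h0 : ∀ n, 0 ≤ H n) (hM : ∀ n, H n ≤ M) (x : ℕ) (hx : y ≤ x) :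
    |∑ n ∈ Ioc y x, e n * H n| ≤ 2 * c * M := by
  have hc0 : 0 ≤ c := (abs_nonneg _).trans (hc y le_rfl)
  have key : |∑ n ∈ Ioc y x, e n * H n - (∑ n ∈ Ioc y x, e n) * H x| ≤ c * (H x - H y) := by
    induction x, hx using Nat.le_induction with
    | base => simp
    | succ x hx ih =>
      rw [sum_Ioc_succ_top (by omega), sum_Ioc_succ_top (by omega)]
      have e1 : ∑ n ∈ Ioc y x, e n * H n + e (x + 1) * H (x + 1) - (∑ n ∈ Ioc y x, e n + e (x + 1)) * H (x + 1) =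
          (∑ n ∈ Ioc y x, e n * H n - (∑ n ∈ Ioc y x, e n) * H x) - (∑ n ∈ Ioc y x, e n) * (H (x + 1) - H x) := by
        ring
      rw [e1]
      have h1 : 0 ≤ H (x + 1) - H x := sub_nonneg.2 (hH (by omega))
      refine (abs_sub _ _).trans ?_
      rw [abs_mul, abs_of_nonneg h1]
      have h2 := mul_le_mul_of_nonneg_right (hc x hx) h1
      linarith
  have h1 : |(∑ n ∈ Ioc y x, e n) * H x| ≤ c * H x := by
    rw [abs_mul, abs_of_nonneg (h0 x)]
    exact mul_le_mul_of_nonneg_right (hc x hx) (h0 x)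
  have h2 : ∑ n ∈ Ioc y x, e n * H n = (∑ n ∈ Ioc y x, e n * H n - (∑ n ∈ Ioc y x, e n) * H x) +
      (∑ n ∈ Ioc y x, e n) * H x := by ring
  rw [h2]
  refine (abs_add_le _ _).trans ?_
  have h3 := mul_le_mul_of_nonneg_left (hM x) hc0
  have h4 := mul_nonneg hc0 (h0 y)
  linarith

/-- partial summation with an antitone factor -/
lemma abel_anti {e G : ℕ → ℝ} {c : ℝ} {y : ℕ} (hc : ∀ x, y ≤ x → |∑ n ∈ Ioc y x, e n| ≤ c)
    (hG : Antitone G) (h0 : ∀ n, 0 ≤ G n) (h1 : ∀ n, G n ≤ 1) (x : ℕ) (hx : y ≤ x) :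
    |∑ n ∈ Ioc y x, e n * G n| ≤ c := by
  have hc0 : 0 ≤ c := (abs_nonneg _).trans (hc y le_rfl)
  have key : |∑ n ∈ Ioc y x, e n * G n - (∑ n ∈ Ioc y x, e n) * G x| ≤ c * (G y - G x) := by
    induction x, hx using Nat.le_induction with
    | base => simp
    | succ x hx ih =>
      rw [sum_Ioc_succ_top (by omega), sum_Ioc_succ_top (by omega)]
      have e1 : ∑ n ∈ Ioc y x, e n * G n + e (x + 1) * G (x + 1) - (∑ n ∈ Ioc y x, e n + e (x + 1)) * G (x + 1) =
          (∑ n ∈ Ioc y x, e n * G n - (∑ n ∈ Ioc y x, e n) * G x) + (∑ n ∈ Ioc y x, e n) * (G x - G (x + 1)) := by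
        ring
      rw [e1]
      have h1 : 0 ≤ G x - G (x + 1) := sub_nonneg.2 (hG (by omega))
      refine (abs_add_le _ _).trans ?_
      rw [abs_mul (∑ n ∈ Ioc y x, e n), abs_of_nonneg h1]
      have h2 := mul_le_mul_of_nonneg_right (hc x hx) h1
      linarith
  have h1' : |(∑ n ∈ Ioc y x, e n) * G x| ≤ c * G x := by
    rw [abs_mul, abs_of_nonneg (h0 x)]
    exact mul_le_mul_of_nonneg_right (hc x hx) (h0 x)
  have h2 : ∑ n ∈ Ioc y x, e n * G n = (∑ n ∈ Ioc y x, e n * G n - (∑ n ∈ Ioc y x, e n) * G x) +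
      (∑ n ∈ Ioc y x, e n) * G x := by ring
  rw [h2]
  refine (abs_add_le _ _).trans ?_
  have h3 := mul_le_mul_of_nonneg_left (h1 y) hc0
  linarith

/-- the functional -/
noncomputable def DD (y x D : ℕ) (G : ℕ → ℕ → ℝ) : ℝ :=
  ∑ n ∈ Ioc y x, (G n n - (1 / (D : ℝ)) * ∑ c ∈ range D, G n c)

lemma DD_sum (y x D : ℕ) {τ : Type} (T : Finset τ) (G : τ → ℕ → ℕ → ℝ) :
    DD y x D (fun n c => ∑ t ∈ T, G t n c) = ∑ t ∈ T, DD y x D (G t) := by
  unfold DD
  rw [sum_comm]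
  refine sum_congr rfl fun n _ => ?_
  rw [sum_sub_distrib, ← mul_sum, sum_comm]

lemma DD_congr {y x D : ℕ} {G G' : ℕ → ℕ → ℝ} (h : ∀ n c, G n c = G' n c) : DD y x D G = DD y x D G' := by
  have : G = G' := funext fun n => funext fun c => h n c
  rw [this]

lemma DD_mul (y x D : ℕ) (G : ℕ → ℕ → ℝ) (u : ℝ) : DD y x D (fun n c => u * G n c) = u * DD y x D G := by
  unfold DD
  rw [mul_sum]
  refine sum_congr rfl fun n _ => ?_
  rw [← mul_sum]
  ring

/-- one term of the expansion -/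
lemma DD_one {t : Finset ℕ} (ht : ∀ p ∈ t, p.Prime) {D : ℕ} (hD : (∏ p ∈ t, p) ∣ D) (hD0 : 0 < D) {G : ℕ → ℝ}
    (hG : Antitone G) (hG0 : ∀ n, 0 ≤ G n) (hG1 : ∀ n, G n ≤ 1) {h : ℕ → ℕ → ℕ → ℝ} {K : ℕ} {A : ℕ → Finset ℕ}
    (hm : ∀ p ∈ t, ∀ c, Monotone (fun n => h p n c)) (h0 : ∀ p ∈ t, ∀ n c, 0 ≤ h p n c)
    (hK : ∀ p ∈ t, ∀ n c, h p n c ≤ K) (hper : ∀ p ∈ t, ∀ n c, h p n (c + p) = h p n c)
    (hA : ∀ p ∈ t, #(A p) ≤ K) (hs : ∀ p ∈ t, ∀ n c, h p n c ≠ 0 → c % p ∈ A p) (y x : ℕ) (hx : y ≤ x) :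
    |DD y x D (fun n c => G n * ∏ p ∈ t, (h p n c / p))| ≤ 4 * ∏ p ∈ t, ((K : ℝ) ^ 2 / p) := by
  classical
  obtain ⟨d, hd⟩ : ∃ d, d = ∏ p ∈ t, p := ⟨_, rfl⟩
  rw [← hd] at hD
  have hd0 : 0 < d := by
    rw [hd]
    exact Finset.prod_pos fun p hp => (ht p hp).pos
  have hdr : (0 : ℝ) < d := by exact_mod_cast hd0
  obtain ⟨q, hq⟩ := hD
  have hq0 : (q : ℝ) ≠ 0 := by
    have : 0 < q := Nat.pos_of_ne_zero (fun h' => by rw [hq, h'] at hD0; simp at hD0)
    have : (0 : ℝ) < q := by exact_mod_cast this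
    exact this.ne'
  obtain ⟨H, hH⟩ : ∃ H : ℕ → ℕ → ℝ, H = fun n c => ∏ p ∈ t, (h p n c / p) := ⟨_, rfl⟩
  have hHp : ∀ n c, H n (c + d) = H n c := by
    intro n c
    rw [hH]
    refine prod_congr rfl fun p hp => ?_
    congr 1
    have hpd : p ∣ d := by
      rw [hd]
      exact dvd_prod_of_mem _ hp
    have h1 := per_mod (g := h p n) (hper p hp n) (c + d)
    have h2 := per_mod (g := h p n) (hper p hp n) c
    obtain ⟨u, hu⟩ := hpd
    have e : (c + d) % p = c % p := by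
      rw [hu, Nat.add_mul_mod_self_left]
    rw [← h1, e, h2]
  have e1 : DD y x D (fun n c => G n * ∏ p ∈ t, (h p n c / p)) =
      ∑ c ∈ range d, ∑ n ∈ Ioc y x, ((if n % d = c then (1 : ℝ) else 0) - 1 / d) * H n c * G n := by
    unfold DD
    rw [sum_comm]
    refine sum_congr rfl fun n _ => ?_
    have e2 : ∑ c ∈ range D, G n * ∏ p ∈ t, (h p n c / p) = q * ∑ c ∈ range d, G n * H n c := by
      rw [hq, hH]
      refine sum_range_per (fun c => G n * ∏ p ∈ t, (h p n c / p)) (fun c => ?_) q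
      have := hHp n c
      rw [hH] at this
      exact congrArg (fun u => G n * u) this
    rw [e2]
    have e3 : ∑ c ∈ range d, ((if n % d = c then (1 : ℝ) else 0) - 1 / d) * H n c * G n =
        H n (n % d) * G n - (1 / d) * ∑ c ∈ range d, G n * H n c := by
      have e4 : ∀ c ∈ range d, ((if n % d = c then (1 : ℝ) else 0) - 1 / d) * H n c * G n =
          (if n % d = c then H n c * G n else 0) - (1 / d) * (G n * H n c) := by
        intro c _
        split_ifs <;> ring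
      rw [sum_congr rfl e4, sum_sub_distrib, ← mul_sum, sum_ite_eq, if_pos (mem_range.2 (Nat.mod_lt _ hd0))]
    rw [e3, per_mod (g := H n) (hHp n) n, hq]
    have e5 : ∏ p ∈ t, (h p n n / p) = H n n := by rw [hH]
    show G n * ∏ p ∈ t, (h p n n / p) - _ = _
    rw [e5]
    push_cast
    field_simp
  rw [e1]
  refine (abs_sum_le_sum_abs _ _).trans ?_
  obtain ⟨R, hR⟩ : ∃ R : Finset ℕ, R = (range d).filter (fun c => ∀ p ∈ t, c % p ∈ A p) := ⟨_, rfl⟩
  have hM0 : 0 ≤ ∏ p ∈ t, ((K : ℝ) / p) := prod_nonneg fun p _ => by positivity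
  have h1 : ∀ c ∈ range d, |∑ n ∈ Ioc y x, ((if n % d = c then (1 : ℝ) else 0) - 1 / d) * H n c * G n| ≤
      if c ∈ R then 4 * ∏ p ∈ t, ((K : ℝ) / p) else 0 := by
    intro c hc
    rw [mem_range] at hc
    split_ifs with hcR
    · refine abel_anti (e := fun n => ((if n % d = c then (1 : ℝ) else 0) - 1 / d) * H n c) ?_ hG hG0 hG1 x hx
      intro x' hx'
      have h2 := abel_mono (e := fun n : ℕ => ((if n % d = c then (1 : ℝ) else 0) - 1 / d)) (c := 2)
        (H := fun n => H n c) (M := ∏ p ∈ t, ((K : ℝ) / p)) (y := y) ?_ ?_ ?_ ?_ x' hx'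
      · refine h2.trans (le_of_eq (by ring))
      · intro x'' hx''
        have h3 := lam_bound y (x'' - y) hd0 c hc
        unfold lam at h3
        have e2 : y + (x'' - y) = x'' := by omega
        rw [e2, card_filter] at h3
        rw [sum_sub_distrib, sum_const, Nat.card_Ioc, nsmul_eq_mul]
        push_cast at h3 ⊢
        rw [mul_one_div]
        exact h3
      · intro n n' hn
        simp only
        rw [hH]
        refine prod_le_prod (fun p hp => div_nonneg (h0 p hp _ _) (by positivity)) fun p hp => ?_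
        exact div_le_div_of_nonneg_right (hm p hp c hn) (by positivity)
      · intro n
        rw [hH]
        exact prod_nonneg fun p hp => div_nonneg (h0 p hp _ _) (by positivity)
      · intro n
        rw [hH]
        refine prod_le_prod (fun p hp => div_nonneg (h0 p hp _ _) (by positivity)) fun p hp => ?_
        exact div_le_div_of_nonneg_right (hK p hp n c) (by positivity)
    · have h2 : ∃ p ∈ t, c % p ∉ A p := by
        by_contra h'
        push Not at h'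
        exact hcR (by rw [hR, mem_filter, mem_range]; exact ⟨hc, h'⟩)
      obtain ⟨p, hp, hpA⟩ := h2
      have h3 : ∀ n, H n c = 0 := by
        intro n
        rw [hH]
        refine prod_eq_zero hp ?_
        have : h p n c = 0 := by
          by_contra h4
          exact hpA (hs p hp n c h4)
        rw [this, zero_div]
      have : ∑ n ∈ Ioc y x, ((if n % d = c then (1 : ℝ) else 0) - 1 / d) * H n c * G n = 0 :=
        sum_eq_zero fun n _ => by rw [h3]; ring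
      rw [this, abs_zero]
  refine (sum_le_sum h1).trans ?_
  rw [← sum_filter, sum_const, nsmul_eq_mul]
  have h2 : #((range d).filter (fun c => c ∈ R)) ≤ K ^ #t := by
    refine (card_le_card ?_).trans (crt_card t A K ht hA)
    intro c hc
    rw [mem_filter, hR, mem_filter] at hc
    rw [← hd, mem_filter]
    exact hc.2
  have h3 : (#((range d).filter (fun c => c ∈ R)) : ℝ) ≤ (K : ℝ) ^ #t := by exact_mod_cast h2
  calc (#((range d).filter (fun c => c ∈ R)) : ℝ) * (4 * ∏ p ∈ t, ((K : ℝ) / p)) ≤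
        (K : ℝ) ^ #t * (4 * ∏ p ∈ t, ((K : ℝ) / p)) := mul_le_mul_of_nonneg_right h3 (by positivity)
    _ = 4 * ∏ p ∈ t, ((K : ℝ) ^ 2 / p) := by
        rw [← prod_const]
        have : ∏ p ∈ t, ((K : ℝ) ^ 2 / p) = (∏ _p ∈ t, (K : ℝ)) * ∏ p ∈ t, ((K : ℝ) / p) := by
          rw [← prod_mul_distrib]
          exact prod_congr rfl fun p _ => by ring
        rw [this]
        ring

/-- the discrepancy of a product -/
theorem prod_disc {T : Finset ℕ} (hT : ∀ p ∈ T, p.Prime) {g : ℕ → ℕ → ℝ} {h : ℕ → ℕ → ℕ → ℝ} {K : ℕ}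
    {A : ℕ → Finset ℕ} (hg : ∀ p ∈ T, Antitone (g p)) (hg0 : ∀ p ∈ T, ∀ n, 0 ≤ g p n) (hg1 : ∀ p ∈ T, ∀ n, g p n ≤ 1)
    (hm : ∀ p ∈ T, ∀ c, Monotone (fun n => h p n c)) (h0 : ∀ p ∈ T, ∀ n c, 0 ≤ h p n c)
    (hK : ∀ p ∈ T, ∀ n c, h p n c ≤ K) (hper : ∀ p ∈ T, ∀ n c, h p n (c + p) = h p n c)
    (hA : ∀ p ∈ T, #(A p) ≤ K) (hs : ∀ p ∈ T, ∀ n c, h p n c ≠ 0 → c % p ∈ A p) (y x : ℕ) (hx : y ≤ x) :
    |DD y x (∏ p ∈ T, p) (fun n c => ∏ p ∈ T, (h p n c / p + g p n))| ≤ 4 * ∏ p ∈ T, (1 + (K : ℝ) ^ 2 / p) := by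
  classical
  have hD0 : 0 < ∏ p ∈ T, p := Finset.prod_pos fun p hp => (hT p hp).pos
  have hexp : DD y x (∏ p ∈ T, p) (fun n c => ∏ p ∈ T, (h p n c / p + g p n)) =
      ∑ t ∈ T.powerset, DD y x (∏ p ∈ T, p) (fun n c => (∏ p ∈ t, (h p n c / p)) * ∏ p ∈ T \ t, g p n) := by
    rw [← DD_sum]
    exact DD_congr fun n c => prod_add _ _ _
  rw [hexp]
  refine (abs_sum_le_sum_abs _ _).trans ?_
  have h1 : ∀ t ∈ T.powerset, |DD y x (∏ p ∈ T, p) (fun n c => (∏ p ∈ t, (h p n c / p)) * ∏ p ∈ T \ t, g p n)| ≤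
      4 * ∏ p ∈ t, ((K : ℝ) ^ 2 / p) := by
    intro t ht
    rw [mem_powerset] at ht
    have h2 := DD_one (t := t) (fun p hp => hT p (ht hp)) (prod_dvd_prod_of_subset t T _ ht) hD0
      (G := fun n => ∏ p ∈ T \ t, g p n) ?_ ?_ ?_ (h := h) (K := K) (A := A) (fun p hp => hm p (ht hp))
      (fun p hp => h0 p (ht hp)) (fun p hp => hK p (ht hp)) (fun p hp => hper p (ht hp))
      (fun p hp => hA p (ht hp)) (fun p hp => hs p (ht hp)) y x hx
    · refine le_trans (le_of_eq ?_) h2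
      congr 1
      exact DD_congr fun n c => mul_comm _ _
    · intro n n' hn
      exact prod_le_prod (fun p hp => hg0 p (mem_sdiff.1 hp).1 _) fun p hp => hg p (mem_sdiff.1 hp).1 hn
    · intro n
      exact prod_nonneg fun p hp => hg0 p (mem_sdiff.1 hp).1 _
    · intro n
      exact prod_le_one (fun p hp => hg0 p (mem_sdiff.1 hp).1 _) fun p hp => hg1 p (mem_sdiff.1 hp).1 _
  refine (sum_le_sum h1).trans ?_
  rw [← mul_sum]
  refine mul_le_mul_of_nonneg_left (le_of_eq ?_) (by norm_num)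
  have e : ∏ p ∈ T, (1 + (K : ℝ) ^ 2 / p) = ∏ p ∈ T, ((K : ℝ) ^ 2 / p + 1) := prod_congr rfl fun p _ => add_comm _ _
  rw [e, prod_add_one]

end Pool.Agent.L5helper2.BH
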