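import Pool.Agent.L5helper2.BH.A1

/-! Project BH (helper2): second moments. -/

set_option autoImplicit false

namespace Pool.Agent.L5helper2.BH

open Finset MeasureTheory ProbabilityTheory

variable {Ω : Type} [MeasurableSpace Ω] {P : Measure Ω} {a : ℕ → Ω → ℕ}

/-- independent uniform residues -/
structure Sys (P : Measure Ω) (a : ℕ → Ω → ℕ) : Prop where
  prob : IsProbabilityMeasure P
  meas : ∀ p, Measurable (a p)
  ind : iIndepFun (fun p : Nat.Primes => a p) P
  unif : ∀ p r : ℕ, p.Prime → r < p → P.real {ω | a p ω = r} = 1 / p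

/-- the mean value of a function of one residue -/
noncomputable def mn (p : ℕ) (φ : ℕ → ℝ) : ℝ := (1 / (p : ℝ)) * ∑ b ∈ range p, φ b

lemma Sys.ae_lt (h : Sys P a) {p : ℕ} (hp : p.Prime) : ∀ᵐ ω ∂P, a p ω < p := by
  have hP := h.prob
  have hp0 : (p : ℝ) ≠ 0 := by exact_mod_cast hp.ne_zero
  have h1 : P.real {ω | a p ω < p} = 1 := by
    have e : {ω | a p ω < p} = ⋃ b ∈ range p, {ω | a p ω = b} := by
      ext ω
      simp
    rw [e, measureReal_biUnion_finset]
    · rw [sum_congr rfl fun b hb => h.unif p b hp (mem_range.1 hb), sum_const, card_range, nsmul_eq_mul]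
      field_simp
    · intro b _ b' _ hbb
      refine Set.disjoint_left.2 fun ω hω hω' => hbb ?_
      have h2 : a p ω = b := hω
      have h3 : a p ω = b' := hω'
      rw [← h2, h3]
    · intro b _
      exact h.meas p (measurableSet_singleton b)
  have hm : MeasurableSet {ω | a p ω < p} := by
    have : {ω | a p ω < p} = a p ⁻¹' {b | b < p} := rfl
    rw [this]
    exact h.meas p MeasurableSet.of_discrete
  have h2 : P.real {ω | a p ω < p}ᶜ = 0 := by
    rw [probReal_compl_eq_one_sub hm, h1, sub_self]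
  have h3 : P {ω | a p ω < p}ᶜ = 0 := by
    rwa [measureReal_eq_zero_iff] at h2
  exact h3

lemma Sys.int_one (h : Sys P a) {p : ℕ} (hp : p.Prime) (φ : ℕ → ℝ) : ∫ ω, φ (a p ω) ∂P = mn p φ := by
  have hP := h.prob
  have h1 : (fun ω => φ (a p ω)) =ᵐ[P] fun ω => ∑ b ∈ range p, φ b * ({ω | a p ω = b}.indicator (fun _ => (1 : ℝ)) ω) := by
    filter_upwards [h.ae_lt hp] with ω hω
    rw [sum_eq_single (a p ω)]
    · rw [Set.indicator_of_mem (show ω ∈ {ω' | a p ω' = a p ω} from rfl), mul_one]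
    · intro b _ hb
      have h2 : ω ∉ {ω' | a p ω' = b} := fun h' => hb (Eq.symm h')
      rw [Set.indicator_of_notMem h2, mul_zero]
    · intro h'
      exact absurd (mem_range.2 hω) h'
  have hms : ∀ b, MeasurableSet {ω | a p ω = b} := fun b => h.meas p (measurableSet_singleton b)
  rw [integral_congr_ae h1, integral_finset_sum _ fun b _ => ?_]
  · unfold mn
    rw [mul_sum]
    refine sum_congr rfl fun b hb => ?_
    rw [integral_const_mul, RS.integral_ind (hms b), h.unif p b hp (mem_range.1 hb), mul_comm]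
  · exact (RS.int_ind (hms b)).const_mul _

lemma Sys.int_prod (h : Sys P a) {T : Finset ℕ} (hT : ∀ p ∈ T, p.Prime) (φ : ℕ → ℕ → ℝ) :
    ∫ ω, ∏ p ∈ T, φ p (a p ω) ∂P = ∏ p ∈ T, mn p (φ p) := by
  have hP := h.prob
  have hinj : Function.Injective (fun p : T => (⟨p, hT p p.2⟩ : Nat.Primes)) := by
    intro p q hpq
    have : (p : ℕ) = q := congrArg (fun u : Nat.Primes => (u : ℕ)) hpq
    exact Subtype.ext this
  have h1 := h.ind.precomp hinj
  have h2 := h1.integral_fun_prod_comp (f := fun p : T => φ p) (fun p => (h.meas p).aemeasurable)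
    (fun p => (measurable_of_countable _).aestronglyMeasurable)
  have e1 : ∀ ω, ∏ p : T, φ p (a p ω) = ∏ p ∈ T, φ p (a p ω) := fun ω => prod_coe_sort T fun p => φ p (a p ω)
  simp only [e1] at h2
  rw [h2, ← prod_coe_sort T]
  exact prod_congr rfl fun p _ => h.int_one (hT p p.2) _

lemma Sys.prod_meas (h : Sys P a) (T : Finset ℕ) (φ : ℕ → ℕ → ℝ) :
    Measurable (fun ω => ∏ p ∈ T, φ p (a p ω)) :=
  Finset.measurable_prod _ fun p _ => (measurable_of_countable (φ p)).comp (h.meas p)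

lemma DD_bound {y x D : ℕ} (hD : 0 < D) (hx : y ≤ x) {G : ℕ → ℕ → ℝ} {B : ℝ} (hB : ∀ n c, |G n c| ≤ B) :
    |DD y x D G| ≤ 2 * B * ((x : ℝ) - y) := by
  have hD0 : (0 : ℝ) < D := by exact_mod_cast hD
  have h1 : ∀ n ∈ Ioc y x, |G n n - (1 / (D : ℝ)) * ∑ c ∈ range D, G n c| ≤ 2 * B := by
    intro n _
    refine (abs_sub _ _).trans ?_
    have h2 : |(1 / (D : ℝ)) * ∑ c ∈ range D, G n c| ≤ B := by
      rw [abs_mul, abs_of_pos (by positivity : (0 : ℝ) < 1 / D)]
      calc (1 / (D : ℝ)) * |∑ c ∈ range D, G n c| ≤ (1 / (D : ℝ)) * ∑ _c ∈ range D, B :=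
            mul_le_mul_of_nonneg_left ((abs_sum_le_sum_abs _ _).trans (sum_le_sum fun c _ => hB n c)) (by positivity)
        _ = B := by
            rw [sum_const, card_range, nsmul_eq_mul]
            field_simp
    linarith [hB n n]
  unfold DD
  refine (abs_sum_le_sum_abs _ _).trans ((sum_le_sum h1).trans (le_of_eq ?_))
  rw [sum_const, Nat.card_Ioc, nsmul_eq_mul, Nat.cast_sub hx]
  ring

lemma int_DD {y x D : ℕ} {G : ℕ → ℕ → Ω → ℝ} (hG : ∀ n c, Integrable (G n c) P) :
    Integrable (fun ω => DD y x D (fun n c => G n c ω)) P ∧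
      ∫ ω, DD y x D (fun n c => G n c ω) ∂P = DD y x D (fun n c => ∫ ω, G n c ω ∂P) := by
  unfold DD
  have i2 : ∀ n, Integrable (fun ω => (1 / (D : ℝ)) * ∑ c ∈ range D, G n c ω) P := fun n =>
    (integrable_finset_sum _ fun c _ => hG n c).const_mul _
  have i3 : ∀ n, Integrable (fun ω => G n n ω - (1 / (D : ℝ)) * ∑ c ∈ range D, G n c ω) P := fun n =>
    (hG n n).sub (i2 n)
  refine ⟨integrable_finset_sum _ fun n _ => i3 n, ?_⟩
  simp only
  rw [integral_finset_sum _ fun n _ => i3 n]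
  refine sum_congr rfl fun n _ => ?_
  rw [integral_sub (hG n n) (i2 n), integral_const_mul, integral_finset_sum _ fun c _ => hG n c]

/-- the second moment -/
theorem second {F : ℕ → ℕ → Ω → ℝ} [IsProbabilityMeasure P] (hFm : ∀ n c, Measurable (F n c))
    (hF1 : ∀ n c ω, |F n c ω| ≤ 1) {y x D : ℕ} (hD : 0 < D) (hx : y ≤ x) {B : ℝ}
    (hB : ∀ n c, |DD y x D (fun n' c' => ∫ ω, F n c ω * F n' c' ω ∂P)| ≤ B) :
    ∫ ω, DD y x D (fun n c => F n c ω) ^ 2 ∂P ≤ 2 * B * ((x : ℝ) - y) := by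
  have hi : ∀ n c n' c', Integrable (fun ω => F n c ω * F n' c' ω) P := by
    intro n c n' c'
    refine Integrable.of_bound (C := 1) ((hFm n c).mul (hFm n' c')).aestronglyMeasurable ?_
    refine Filter.Eventually.of_forall fun ω => ?_
    rw [Real.norm_eq_abs, abs_mul]
    exact mul_le_one₀ (hF1 n c ω) (abs_nonneg _) (hF1 n' c' ω)
  have e : ∀ ω, DD y x D (fun n c => F n c ω) ^ 2 = DD y x D (fun n c => DD y x D (fun n' c' => F n c ω * F n' c' ω)) := by
    intro ω
    simp only [DD_mul]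
    have e1 : ∀ n c, F n c ω * DD y x D (fun n c => F n c ω) = DD y x D (fun n c => F n c ω) * F n c ω :=
      fun n c => mul_comm _ _
    simp only [e1]
    rw [DD_mul, sq]
  simp only [e]
  rw [(int_DD fun n c => (int_DD fun n' c' => hi n c n' c').1).2]
  have h1 : ∀ n c, ∫ ω, DD y x D (fun n' c' => F n c ω * F n' c' ω) ∂P =
      DD y x D (fun n' c' => ∫ ω, F n c ω * F n' c' ω ∂P) := fun n c => (int_DD fun n' c' => hi n c n' c').2
  simp only [h1]
  exact (le_abs_self _).trans (DD_bound hD hx hB)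

/-- the inequality of Chebyshev -/
theorem cheb {F : ℕ → ℕ → Ω → ℝ} [IsProbabilityMeasure P] (hFm : ∀ n c, Measurable (F n c))
    (hF1 : ∀ n c ω, |F n c ω| ≤ 1) {y x D : ℕ} (hD : 0 < D) (hx : y ≤ x) {B : ℝ}
    (hB : ∀ n c, |DD y x D (fun n' c' => ∫ ω, F n c ω * F n' c' ω ∂P)| ≤ B) {δ : ℝ} (hδ : 0 < δ) :
    P.real {ω | δ ≤ |DD y x D (fun n c => F n c ω)|} ≤ 2 * B * ((x : ℝ) - y) / δ ^ 2 := by
  have h1 := second hFm hF1 hD hx hB
  have mF : Measurable (fun ω => DD y x D (fun n c => F n c ω)) := by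
    unfold DD
    refine Finset.measurable_sum _ fun n _ => ?_
    exact (hFm n n).sub ((Finset.measurable_sum _ fun c _ => hFm n c).const_mul _)
  have iF : Integrable (fun ω => DD y x D (fun n c => F n c ω) ^ 2) P := by
    refine Integrable.of_bound (C := (2 * 1 * ((x : ℝ) - y)) ^ 2) (mF.pow_const 2).aestronglyMeasurable ?_
    refine Filter.Eventually.of_forall fun ω => ?_
    rw [Real.norm_eq_abs, abs_pow]
    exact pow_le_pow_left₀ (abs_nonneg _) (DD_bound hD hx fun n c => hF1 n c ω) 2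
  have hm := mul_meas_ge_le_integral_of_nonneg (μ := P) (f := fun ω => DD y x D (fun n c => F n c ω) ^ 2)
    (Filter.Eventually.of_forall fun ω => sq_nonneg _) iF (δ ^ 2)
  have hset : {ω | δ ≤ |DD y x D (fun n c => F n c ω)|} = {ω | δ ^ 2 ≤ DD y x D (fun n c => F n c ω) ^ 2} := by
    ext ω
    simp only [Set.mem_ofPred_eq]
    rw [← sq_abs (DD y x D (fun n c => F n c ω))]
    constructor
    · intro h1
      exact pow_le_pow_left₀ hδ.le h1 2
    · intro h1
      exact (pow_le_pow_iff_left₀ hδ.le (abs_nonneg _) (by norm_num)).1 h1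
  rw [hset, le_div_iff₀ (by positivity), mul_comm]
  exact hm.trans h1

end Pool.Agent.L5helper2.BH
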