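import Pool.Agent.L5helper2.BH.A2

/-! Project BH (helper2): from second moments on intervals to an almost sure bound. -/

set_option autoImplicit false

namespace Pool.Agent.L5helper2.BH

open Finset MeasureTheory ProbabilityTheory Filter Topology
open Pool.Agent.L5helper2.RS (dyadic_bound bc)

variable {Ω : Type} [MeasurableSpace Ω] {P : Measure Ω}

/-- the growth of the logarithm -/
lemma clog_growth {ε η : ℝ} (hε : 0 < ε) (hη1 : η ≤ 1) (hηε : η ≤ ε / 2) : ∀ᶠ x : ℕ in atTop,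
    ((Nat.clog 2 x : ℝ) + 1) * (2 * (x : ℝ)) ^ (1 / 2 + η) ≤ (x : ℝ) ^ (1 / 2 + ε) := by
  have h1 : Tendsto (fun x : ℕ => (Real.log x) / (x : ℝ) ^ (ε / 4)) atTop (𝓝 0) := by
    have := (isLittleO_log_rpow_atTop (show 0 < ε / 4 by positivity)).tendsto_div_nhds_zero
    exact this.comp tendsto_natCast_atTop_atTop
  have h2 : Tendsto (fun x : ℕ => (x : ℝ) ^ (ε / 4)) atTop atTop :=
    (tendsto_rpow_atTop (show 0 < ε / 4 by positivity)).comp tendsto_natCast_atTop_atTop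
  filter_upwards [h1.eventually_le_const one_pos, h2.eventually_ge_atTop (2 ^ (5 : ℝ)), eventually_ge_atTop 3]
    with x hx1 hx2 hx3
  have hx0 : (3 : ℝ) ≤ x := by exact_mod_cast hx3
  have hxp : (0 : ℝ) < x := by linarith
  have hxe : (0 : ℝ) < (x : ℝ) ^ (ε / 4) := by positivity
  rw [div_le_one hxe] at hx1
  have hlog1 : 1 ≤ Real.log x := by
    rw [← Real.log_exp 1]
    refine Real.log_le_log (Real.exp_pos _) ?_
    have := Real.exp_one_lt_d9
    linarith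
  have hcl : (Nat.clog 2 x : ℝ) ≤ 2 * Real.log x + 1 := by
    have h3 : 2 ^ (Nat.clog 2 x - 1) < x := Nat.pow_pred_clog_lt_self (by norm_num) (by omega)
    have h4 : (2 : ℝ) ^ (Nat.clog 2 x - 1) ≤ x := by exact_mod_cast h3.le
    have h5 := Real.log_le_log (by positivity) h4
    rw [Real.log_pow] at h5
    have h6 : 1 / 2 < Real.log 2 := by
      have := Real.log_two_gt_d9
      linarith
    have h7 : ((Nat.clog 2 x : ℕ) : ℝ) ≤ ((Nat.clog 2 x - 1 : ℕ) : ℝ) + 1 := by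
      have : Nat.clog 2 x ≤ Nat.clog 2 x - 1 + 1 := by omega
      exact_mod_cast this
    have h8 : (0 : ℝ) ≤ ((Nat.clog 2 x - 1 : ℕ) : ℝ) := by positivity
    nlinarith
  have h3 : (Nat.clog 2 x : ℝ) + 1 ≤ 4 * (x : ℝ) ^ (ε / 4) := by linarith
  have h4 : (2 : ℝ) ^ (1 / 2 + η) ≤ 2 ^ (2 : ℝ) :=
    Real.rpow_le_rpow_of_exponent_le (by norm_num) (by linarith)
  have h5 : (x : ℝ) ^ (1 / 2 + η) ≤ (x : ℝ) ^ (1 / 2 + ε / 2) :=
    Real.rpow_le_rpow_of_exponent_le (by linarith) (by linarith)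
  have h6 : (32 : ℝ) ≤ (x : ℝ) ^ (ε / 4) := by
    have : (2 : ℝ) ^ (5 : ℝ) = 32 := by norm_num
    linarith
  have h7 : (2 : ℝ) ^ (2 : ℝ) = 4 := by norm_num
  rw [h7] at h4
  rw [Real.mul_rpow (by norm_num) hxp.le]
  calc ((Nat.clog 2 x : ℝ) + 1) * ((2 : ℝ) ^ (1 / 2 + η) * (x : ℝ) ^ (1 / 2 + η)) ≤
        (4 * (x : ℝ) ^ (ε / 4)) * (4 * (x : ℝ) ^ (1 / 2 + ε / 2)) := by
        refine mul_le_mul h3 ?_ (by positivity) (by positivity)
        exact mul_le_mul h4 h5 (by positivity) (by norm_num)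
    _ = 16 * ((x : ℝ) ^ (ε / 4) * (x : ℝ) ^ (1 / 2 + ε / 2)) := by ring
    _ ≤ (x : ℝ) ^ (ε / 4) * ((x : ℝ) ^ (ε / 4) * (x : ℝ) ^ (1 / 2 + ε / 2)) :=
        mul_le_mul_of_nonneg_right (by linarith) (by positivity)
    _ = (x : ℝ) ^ (1 / 2 + ε) := by
        rw [← Real.rpow_add hxp, ← Real.rpow_add hxp]
        congr 1
        ring

/-- the almost sure bound -/
theorem as_bound [IsProbabilityMeasure P] {G : Ω → ℕ → ℕ → ℝ}
    (hG : ∀ ω a y y', G ω a (y + y') = G ω a y + G ω (a + y) y')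
    (hpr : ∀ η : ℝ, 0 < η → ∃ (C : ℝ) (K0 : ℕ), 0 < C ∧ ∀ K : ℕ, K0 ≤ K → ∀ a L : ℕ, 1 ≤ L → a + L ≤ 2 ^ K →
      ∀ δ : ℝ, 0 < δ → P.real {ω | δ ≤ |G ω a L|} ≤ C * L * ((2 ^ K : ℕ) : ℝ) ^ η / δ ^ 2)
    {ε : ℝ} (hε : 0 < ε) : ∀ᵐ ω ∂P, ∀ᶠ x : ℕ in atTop, |G ω 0 x| ≤ (x : ℝ) ^ (1 / 2 + ε) := by
  obtain ⟨η, hη⟩ : ∃ η : ℝ, η = min (ε / 2) 1 := ⟨_, rfl⟩
  have hη0 : 0 < η := by
    rw [hη]
    exact lt_min (by positivity) one_pos
  have hη1 : η ≤ 1 := by rw [hη]; exact min_le_right _ _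
  have hηε : η ≤ ε / 2 := by rw [hη]; exact min_le_left _ _
  obtain ⟨C, K0, hC, hp⟩ := hpr η hη0
  -- the events
  obtain ⟨δ, hδ⟩ : ∃ δ : ℕ → ℝ, δ = fun K => ((2 ^ K : ℕ) : ℝ) ^ (1 / 2 + η) := ⟨_, rfl⟩
  have hδ0 : ∀ K, 0 < δ K := fun K => by rw [hδ]; positivity
  obtain ⟨B, hB⟩ : ∃ B : ℕ → Set Ω, B = fun K => ⋃ i ∈ range (K + 1), ⋃ j ∈ range (2 ^ (K - i)),
      {ω | δ K ≤ |G ω (j * 2 ^ i) (2 ^ i)|} := ⟨_, rfl⟩
  have hPB : ∀ K : ℕ, K0 ≤ K → P.real (B K) ≤ (K + 1) * (C * ((2 ^ K : ℕ) : ℝ) ^ (-η)) := by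
    intro K hK
    have h2K0 : (0 : ℝ) < ((2 ^ K : ℕ) : ℝ) := by positivity
    rw [hB]
    refine (measureReal_biUnion_finset_le _ _).trans ?_
    calc ∑ i ∈ range (K + 1), P.real (⋃ j ∈ range (2 ^ (K - i)), {ω | δ K ≤ |G ω (j * 2 ^ i) (2 ^ i)|}) ≤
          ∑ _i ∈ range (K + 1), C * ((2 ^ K : ℕ) : ℝ) ^ (-η) := by
          refine sum_le_sum fun i hi' => ?_
          rw [mem_range] at hi'
          refine (measureReal_biUnion_finset_le _ _).trans ?_
          have e2 : 2 ^ (K - i) * 2 ^ i = 2 ^ K := by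
            rw [← pow_add]
            congr 1
            omega
          calc ∑ j ∈ range (2 ^ (K - i)), P.real {ω | δ K ≤ |G ω (j * 2 ^ i) (2 ^ i)|} ≤
                ∑ _j ∈ range (2 ^ (K - i)), C * ((2 ^ i : ℕ) : ℝ) * ((2 ^ K : ℕ) : ℝ) ^ η / δ K ^ 2 := by
                refine sum_le_sum fun j hj => ?_
                rw [mem_range] at hj
                refine hp K hK (j * 2 ^ i) (2 ^ i) (Nat.one_le_two_pow) ?_ (δ K) (hδ0 K)
                calc j * 2 ^ i + 2 ^ i = (j + 1) * 2 ^ i := by ring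
                  _ ≤ 2 ^ (K - i) * 2 ^ i := Nat.mul_le_mul_right _ hj
                  _ = 2 ^ K := e2
            _ = C * (((2 ^ (K - i) : ℕ) : ℝ) * ((2 ^ i : ℕ) : ℝ)) * ((2 ^ K : ℕ) : ℝ) ^ η / δ K ^ 2 := by
                rw [sum_const, card_range, nsmul_eq_mul]
                ring
            _ = C * ((2 ^ K : ℕ) : ℝ) ^ (-η) := by
                rw [← Nat.cast_mul, e2, hδ]
                simp only
                rw [← Real.rpow_natCast (((2 ^ K : ℕ) : ℝ) ^ (1 / 2 + η)), ← Real.rpow_mul h2K0.le,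
                  div_eq_iff (by positivity)]
                have e3 : C * ((2 ^ K : ℕ) : ℝ) ^ (-η) * ((2 ^ K : ℕ) : ℝ) ^ ((1 / 2 + η) * ((2 : ℕ) : ℝ)) =
                    C * (((2 ^ K : ℕ) : ℝ) ^ (-η) * ((2 ^ K : ℕ) : ℝ) ^ ((1 / 2 + η) * ((2 : ℕ) : ℝ))) := by ring
                have e4 : C * ((2 ^ K : ℕ) : ℝ) * ((2 ^ K : ℕ) : ℝ) ^ η =
                    C * (((2 ^ K : ℕ) : ℝ) ^ (1 : ℝ) * ((2 ^ K : ℕ) : ℝ) ^ η) := by
                  rw [Real.rpow_one]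
                  ring
                rw [e3, e4, ← Real.rpow_add h2K0, ← Real.rpow_add h2K0]
                congr 2
                push_cast
                ring
      _ = _ := by
          rw [sum_const, card_range, nsmul_eq_mul]
          push_cast
          ring
  have hbc : ∀ᵐ ω ∂P, ∀ᶠ K in atTop, ω ∉ B K := by
    refine bc (C := C) ?_
    have hr : |(2 : ℝ) ^ (-η)| < 1 := by
      rw [abs_of_pos (by positivity)]
      exact Real.rpow_lt_one_of_one_lt_of_neg (by norm_num) (by linarith)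
    have ht := tendsto_pow_const_mul_const_pow_of_abs_lt_one 3 hr
    have ht' := (ht.comp (tendsto_add_atTop_nat 1)).mul_const (((2 : ℝ) ^ (-η))⁻¹)
    rw [zero_mul] at ht'
    filter_upwards [eventually_ge_atTop K0, ht'.eventually_le_const one_pos] with K hK1 hK2
    refine (hPB K hK1).trans ?_
    have hK0 : (0 : ℝ) < (K : ℝ) + 1 := by positivity
    rw [le_div_iff₀ (by positivity)]
    simp only [Function.comp] at hK2
    have e : ((2 ^ K : ℕ) : ℝ) ^ (-η) = ((2 : ℝ) ^ (-η)) ^ K := by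
      push_cast
      rw [← Real.rpow_natCast, ← Real.rpow_mul (by norm_num), ← Real.rpow_natCast, ← Real.rpow_mul (by norm_num), mul_comm]
    rw [e]
    have e2 : (((K + 1 : ℕ) : ℝ) ^ 3 * ((2 : ℝ) ^ (-η)) ^ (K + 1)) * ((2 : ℝ) ^ (-η))⁻¹ =
        ((K : ℝ) + 1) ^ 3 * ((2 : ℝ) ^ (-η)) ^ K := by
      have h2 : (2 : ℝ) ^ (-η) ≠ 0 := by positivity
      rw [pow_succ ((2 : ℝ) ^ (-η)) K, mul_assoc, mul_assoc, mul_inv_cancel₀ h2, mul_one]
      push_cast
      rfl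
    rw [e2] at hK2
    calc ((K : ℝ) + 1) * (C * ((2 : ℝ) ^ (-η)) ^ K) * ((K : ℝ) + 1) ^ 2 =
          C * (((K : ℝ) + 1) ^ 3 * ((2 : ℝ) ^ (-η)) ^ K) := by ring
      _ ≤ C * 1 := mul_le_mul_of_nonneg_left hK2 hC.le
      _ = C := mul_one _
  filter_upwards [hbc] with ω hω
  -- the index `K` of `x`
  have hclog : Tendsto (fun x : ℕ => Nat.clog 2 x) atTop atTop := by
    refine tendsto_atTop.2 fun b => ?_
    filter_upwards [eventually_gt_atTop (2 ^ b)] with x hx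
    exact ((Nat.lt_clog_iff_pow_lt (by norm_num)).2 hx).le
  filter_upwards [hclog.eventually hω, clog_growth hε hη1 hηε, eventually_ge_atTop 2] with x hx1 hx2 hx3
  obtain ⟨K, hK⟩ : ∃ K : ℕ, K = Nat.clog 2 x := ⟨_, rfl⟩
  rw [← hK] at hx1 hx2
  have hxK : x ≤ 2 ^ K := by rw [hK]; exact Nat.le_pow_clog (by norm_num) x
  have hKx : 2 ^ K ≤ 2 * x := by
    have h3 : 2 ^ (K - 1) < x := by rw [hK]; exact Nat.pow_pred_clog_lt_self (by norm_num) (by omega)
    have hK1 : 1 ≤ K := by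
      by_contra h'
      have : K = 0 := by omega
      rw [this] at hxK
      simp at hxK
      omega
    have : 2 ^ K = 2 * 2 ^ (K - 1) := by
      rw [← pow_succ']
      congr 1
      omega
    omega
  have hdy := dyadic_bound (G := G ω) (hG ω) (hδ0 K).le
    (K := K) (fun i hi' j hj => by
      by_contra hn
      apply hx1
      rw [hB]
      simp only [Set.mem_iUnion]
      exact ⟨i, mem_range.2 (by omega), j, mem_range.2 hj, (not_le.1 hn).le⟩) K le_rfl 0 (by simp) x hxK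
  simp only [zero_mul] at hdy
  refine hdy.trans (le_trans ?_ hx2)
  refine mul_le_mul_of_nonneg_left ?_ (by positivity)
  rw [hδ]
  refine Real.rpow_le_rpow (by positivity) ?_ (by linarith)
  exact_mod_cast hKx

end Pool.Agent.L5helper2.BH
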