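import Pool.Agent.L5helper2.BH.A3

/-! Project BH (helper2): systems of polynomials, the kernel. -/

set_option autoImplicit false

namespace Pool.Agent.L5helper2.BH

open Finset Polynomial MeasureTheory ProbabilityTheory
open Pool.Agent.L5helper2.RS (res_count)

variable {k : ℕ}

/-- the residue modulo `p` -/
def rs (p : ℕ) (v : ℤ) : ℕ := (v % p).toNat

lemma rs_lt {p : ℕ} (hp : 0 < p) (v : ℤ) : rs p v < p := by
  unfold rs
  have h0 : (p : ℤ) ≠ 0 := by exact_mod_cast hp.ne'
  have h1 := Int.emod_nonneg v h0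
  have h2 := Int.emod_lt_of_pos v (show (0 : ℤ) < p by exact_mod_cast hp)
  omega

lemma rs_eq_rs {p : ℕ} (hp : 0 < p) (v w : ℤ) : rs p v = rs p w ↔ (p : ℤ) ∣ v - w := by
  unfold rs
  have h0 : (p : ℤ) ≠ 0 := by exact_mod_cast hp.ne'
  have h1 := Int.emod_nonneg v h0
  have h2 := Int.emod_nonneg w h0
  have h3 : (v % p).toNat = (w % p).toNat ↔ v % p = w % p := by omega
  rw [h3]
  constructor
  · intro h
    exact Int.ModEq.dvd (Int.ModEq.symm h)
  · intro h
    exact ((Int.modEq_iff_dvd.2 h) : w ≡ v [ZMOD p]).symm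

lemma rs_eq_iff {p : ℕ} (hp : 0 < p) (v : ℤ) {b : ℕ} (hb : b < p) : rs p v = b ↔ (p : ℤ) ∣ v - b := by
  have h1 : rs p (b : ℤ) = b := by
    unfold rs
    have : (b : ℤ) % p = b := Int.emod_eq_of_lt (by positivity) (by exact_mod_cast hb)
    rw [this]
    simp
  rw [← rs_eq_rs hp, h1]

/-- the active components -/
def ac (z : Fin k → ℕ) (p : ℕ) : Finset (Fin k) := univ.filter (fun i => p ≤ z i)

/-- the bad residues -/
def bd (f : Fin k → ℤ[X]) (z : Fin k → ℕ) (p r : ℕ) : Finset ℕ :=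
  (ac z p).image (fun i => rs p ((f i).eval (r : ℤ)))

lemma ac_card (z : Fin k → ℕ) (p : ℕ) : #(ac z p) ≤ k := (card_filter_le _ _).trans (by simp)

lemma bd_card (f : Fin k → ℤ[X]) (z : Fin k → ℕ) (p r : ℕ) : #(bd f z p r) ≤ #(ac z p) := card_image_le

lemma bd_sub (f : Fin k → ℤ[X]) (z : Fin k → ℕ) {p : ℕ} (hp : 0 < p) (r : ℕ) : bd f z p r ⊆ range p := by
  intro b hb
  unfold bd at hb
  rw [mem_image] at hb
  obtain ⟨i, _, rfl⟩ := hb
  exact mem_range.2 (rs_lt hp _)

lemma bd_per (f : Fin k → ℤ[X]) (z : Fin k → ℕ) {p : ℕ} (hp : 0 < p) (r : ℕ) : bd f z p (r + p) = bd f z p r := by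
  unfold bd
  refine image_congr fun i _ => ?_
  rw [rs_eq_rs hp]
  have h1 := Polynomial.sub_dvd_eval_sub ((r + p : ℕ) : ℤ) (r : ℤ) (f i)
  have e : ((r + p : ℕ) : ℤ) - r = p := by push_cast; ring
  rwa [e] at h1

open Classical in
/-- the indicator of the survival at `p` -/
noncomputable def sv (f : Fin k → ℤ[X]) (z : Fin k → ℕ) (p r b : ℕ) : ℝ :=
  if ∀ i, p ≤ z i → ¬ ((p : ℤ) ∣ (f i).eval (r : ℤ) - b) then 1 else 0

lemma sv_01 (f : Fin k → ℤ[X]) (z : Fin k → ℕ) (p r b : ℕ) : 0 ≤ sv f z p r b ∧ sv f z p r b ≤ 1 := by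
  unfold sv
  split_ifs <;> norm_num

lemma sv_eq (f : Fin k → ℤ[X]) (z : Fin k → ℕ) {p : ℕ} (hp : 0 < p) (r : ℕ) {b : ℕ} (hb : b < p) :
    sv f z p r b = if b ∈ bd f z p r then 0 else 1 := by
  classical
  unfold sv
  have : (∀ i, p ≤ z i → ¬ ((p : ℤ) ∣ (f i).eval (r : ℤ) - b)) ↔ b ∉ bd f z p r := by
    unfold bd ac
    rw [mem_image]
    push Not
    refine forall_congr' fun i => ?_
    rw [mem_filter]
    constructor
    · intro h h1 h2
      exact h h1.2 ((rs_eq_iff hp _ hb).1 h2)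
    · intro h h1 h2
      exact h ⟨mem_univ _, h1⟩ ((rs_eq_iff hp _ hb).2 h2)
  by_cases h : b ∈ bd f z p r
  · rw [if_pos h, if_neg (fun h' => this.1 h' h)]
  · rw [if_neg h, if_pos (this.2 h)]

lemma mn_sv2 (f : Fin k → ℤ[X]) (z z' : Fin k → ℕ) {p : ℕ} (hp : 0 < p) (r r' : ℕ) :
    mn p (fun b => sv f z p r b * sv f z' p r' b) = 1 - (#(bd f z p r ∪ bd f z' p r') : ℝ) / p := by
  have hp0 : (p : ℝ) ≠ 0 := by exact_mod_cast hp.ne'
  unfold mn
  have h1 : ∀ b ∈ range p, sv f z p r b * sv f z' p r' b = 1 - if b ∈ bd f z p r ∪ bd f z' p r' then 1 else 0 := by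
    intro b hb
    rw [mem_range] at hb
    rw [sv_eq f z hp r hb, sv_eq f z' hp r' hb]
    by_cases h1 : b ∈ bd f z p r
    · rw [if_pos h1, if_pos (mem_union_left _ h1)]
      ring
    · by_cases h2 : b ∈ bd f z' p r'
      · rw [if_pos h2, if_pos (mem_union_right _ h2)]
        ring
      · rw [if_neg h1, if_neg h2, if_neg (by rw [mem_union]; tauto)]
        ring
  rw [sum_congr rfl h1, sum_sub_distrib, sum_const, card_range, nsmul_eq_mul, mul_one, sum_boole]
  have h2 : (range p).filter (fun b => b ∈ bd f z p r ∪ bd f z' p r') = bd f z p r ∪ bd f z' p r' := by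
    rw [filter_mem_eq_inter]
    exact inter_eq_right.2 (union_subset (bd_sub f z hp r) (bd_sub f z' hp r'))
  rw [h2]
  field_simp

lemma mn_sv (f : Fin k → ℤ[X]) (z : Fin k → ℕ) {p : ℕ} (hp : 0 < p) (r : ℕ) :
    mn p (sv f z p r) = 1 - (#(bd f z p r) : ℝ) / p := by
  have h1 := mn_sv2 f z z hp r r
  rw [union_idempotent] at h1
  rw [← h1]
  unfold mn
  congr 1
  refine sum_congr rfl fun b hb => ?_
  rw [mem_range] at hb
  have h2 := sv_eq f z hp r hb
  show sv f z p r b = sv f z p r b * sv f z p r b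
  rw [h2]
  by_cases h3 : b ∈ bd f z p r
  · rw [if_pos h3, mul_zero]
  · rw [if_neg h3, mul_one]

/-- the number of the roots of a difference -/
lemma root_count {g : ℤ[X]} (hg : g ≠ 0) {p : ℕ} (hp : p.Prime) :
    #((range p).filter (fun y : ℕ => (p : ℤ) ∣ g.eval (y : ℤ))) ≤ g.natDegree + g.leadingCoeff.natAbs := by
  rcases Nat.eq_zero_or_pos g.natDegree with h | h
  · rw [natDegree_eq_zero] at h
    obtain ⟨c, rfl⟩ := h
    have hc : c ≠ 0 := by
      rintro rfl
      simp at hg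
    by_cases hd : (p : ℤ) ∣ c
    · have h1 : p ≤ c.natAbs := Nat.le_of_dvd (Int.natAbs_pos.2 hc) (Int.natCast_dvd.1 hd)
      rw [leadingCoeff_C]
      calc _ ≤ #(range p) := card_filter_le _ _
        _ = p := card_range p
        _ ≤ _ := by omega
    · rw [filter_false_of_mem]
      · simp
      · intro y _
        rw [eval_C]
        exact hd
  · have h1 := res_count g h hp 0
    have e : (range p).filter (fun y : ℕ => (p : ℤ) ∣ 0 - g.eval (y : ℤ)) =
        (range p).filter (fun y : ℕ => (p : ℤ) ∣ g.eval (y : ℤ)) := by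
      refine filter_congr fun y _ => ?_
      rw [zero_sub, dvd_neg]
    rwa [e] at h1

/-- the constant of a system -/
noncomputable def Kc (f : Fin k → ℤ[X]) : ℕ :=
  1 + 2 * k + k * ∑ i, ((f i).natDegree + (f i).leadingCoeff.natAbs) +
    ∑ i, ∑ j, ((f i - f j).natDegree + (f i - f j).leadingCoeff.natAbs)

/-- the collisions -/
def Ap (f : Fin k → ℤ[X]) (U : Finset ℕ) (p : ℕ) : Finset ℕ :=
  (range p).filter (fun c : ℕ => (∃ i, rs p ((f i).eval (c : ℤ)) ∈ U) ∨
    ∃ i j, i ≠ j ∧ rs p ((f i).eval (c : ℤ)) = rs p ((f j).eval (c : ℤ)))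

lemma Ap_card {f : Fin k → ℤ[X]} (hf : ∀ i, 1 ≤ (f i).natDegree) (hinj : Function.Injective f) {U : Finset ℕ}
    (hU : #U ≤ k) {p : ℕ} (hp : p.Prime) : #(Ap f U p) ≤ Kc f := by
  classical
  have h1 : Ap f U p ⊆ ((univ : Finset (Fin k)).biUnion fun i => U.biUnion fun b =>
      (range p).filter (fun y : ℕ => (p : ℤ) ∣ (b : ℤ) - (f i).eval (y : ℤ))) ∪
      ((univ : Finset (Fin k × Fin k)).filter (fun q => q.1 ≠ q.2)).biUnion fun q =>
      (range p).filter (fun y : ℕ => (p : ℤ) ∣ (f q.1 - f q.2).eval (y : ℤ)) := by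
    intro c hc
    unfold Ap at hc
    rw [mem_filter] at hc
    rw [mem_union]
    rcases hc.2 with ⟨i, hi⟩ | ⟨i, j, hij, he⟩
    · left
      rw [mem_biUnion]
      refine ⟨i, mem_univ _, ?_⟩
      rw [mem_biUnion]
      refine ⟨_, hi, ?_⟩
      rw [mem_filter]
      refine ⟨hc.1, ?_⟩
      have := (rs_eq_iff hp.pos ((f i).eval (c : ℤ)) (rs_lt hp.pos _)).1 rfl
      exact dvd_sub_comm.1 this
    · right
      rw [mem_biUnion]
      refine ⟨(i, j), ?_, ?_⟩
      · rw [mem_filter]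
        exact ⟨mem_univ _, hij⟩
      · rw [mem_filter]
        refine ⟨hc.1, ?_⟩
        rw [eval_sub]
        exact (rs_eq_rs hp.pos _ _).1 he
  refine (card_le_card h1).trans ((card_union_le _ _).trans ?_)
  have h2 : #((univ : Finset (Fin k)).biUnion fun i => U.biUnion fun b =>
      (range p).filter (fun y : ℕ => (p : ℤ) ∣ (b : ℤ) - (f i).eval (y : ℤ))) ≤
      k * ∑ i, ((f i).natDegree + (f i).leadingCoeff.natAbs) := by
    refine card_biUnion_le.trans ?_
    rw [mul_sum]
    refine sum_le_sum fun i _ => ?_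
    refine card_biUnion_le.trans ?_
    calc ∑ b ∈ U, #((range p).filter (fun y : ℕ => (p : ℤ) ∣ (b : ℤ) - (f i).eval (y : ℤ))) ≤
          ∑ _b ∈ U, ((f i).natDegree + (f i).leadingCoeff.natAbs) := sum_le_sum fun b _ => res_count (f i) (hf i) hp b
      _ = #U * ((f i).natDegree + (f i).leadingCoeff.natAbs) := by rw [sum_const, smul_eq_mul]
      _ ≤ _ := Nat.mul_le_mul_right _ hU
  have h3 : #(((univ : Finset (Fin k × Fin k)).filter (fun q => q.1 ≠ q.2)).biUnion fun q =>
      (range p).filter (fun y : ℕ => (p : ℤ) ∣ (f q.1 - f q.2).eval (y : ℤ))) ≤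
      ∑ i, ∑ j, ((f i - f j).natDegree + (f i - f j).leadingCoeff.natAbs) := by
    refine card_biUnion_le.trans ?_
    rw [← Fintype.sum_prod_type']
    calc ∑ q ∈ (univ : Finset (Fin k × Fin k)).filter (fun q => q.1 ≠ q.2),
          #((range p).filter (fun y : ℕ => (p : ℤ) ∣ (f q.1 - f q.2).eval (y : ℤ))) ≤
          ∑ q ∈ (univ : Finset (Fin k × Fin k)).filter (fun q => q.1 ≠ q.2),
          ((f q.1 - f q.2).natDegree + (f q.1 - f q.2).leadingCoeff.natAbs) := by
          refine sum_le_sum fun q hq => root_count ?_ hp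
          rw [mem_filter] at hq
          exact sub_ne_zero.2 fun h => hq.2 (hinj h)
      _ ≤ _ := sum_le_sum_of_subset (filter_subset _ _)
  unfold Kc
  omega

/-- the kernel has small discrepancy -/
theorem ker_bound {f : Fin k → ℤ[X]} (hf : ∀ i, 1 ≤ (f i).natDegree) (hinj : Function.Injective f)
    {z : ℕ → Fin k → ℕ} (hz : Monotone z) (hzK : ∀ n i, Kc f ≤ z n i) {T : Finset ℕ} (hT : ∀ p ∈ T, p.Prime)
    {y x : ℕ} (hx : y ≤ x) (z0 : Fin k → ℕ) (r0 : ℕ) :
    |DD y x (∏ p ∈ T, p) (fun n c => ∏ p ∈ T, (1 - (#(bd f z0 p r0 ∪ bd f (z n) p c) : ℝ) / p))| ≤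
      4 * ∏ p ∈ T, (1 + (Kc f : ℝ) ^ 2 / p) := by
  classical
  obtain ⟨K, hK⟩ : ∃ K, K = Kc f := ⟨_, rfl⟩
  rw [← hK] at hzK ⊢
  have hK2 : 2 * k < K := by rw [hK]; unfold Kc; omega
  have hac : ∀ n n', n ≤ n' → ∀ p, ac (z n) p ⊆ ac (z n') p := by
    intro n n' hn p i hi
    unfold ac at hi ⊢
    rw [mem_filter] at hi ⊢
    exact ⟨hi.1, hi.2.trans (hz hn i)⟩
  have hacK : ∀ n p, p ≤ K → ac (z n) p = univ := by
    intro n p hp
    unfold ac
    exact filter_true_of_mem fun i _ => hp.trans (hzK n i)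
  obtain ⟨g, hg⟩ : ∃ g : ℕ → ℕ → ℝ, g = fun p n => if p ≤ K then 0 else
      1 - ((#(bd f z0 p r0) : ℝ) + #(ac (z n) p)) / p := ⟨_, rfl⟩
  obtain ⟨h, hh⟩ : ∃ h : ℕ → ℕ → ℕ → ℝ, h = fun p n c => if p ≤ K then
      (p : ℝ) - #(bd f z0 p r0 ∪ bd f (z n) p c) else
      (#(bd f z0 p r0) : ℝ) + #(ac (z n) p) - #(bd f z0 p r0 ∪ bd f (z n) p c) := ⟨_, rfl⟩
  obtain ⟨A, hA⟩ : ∃ A : ℕ → Finset ℕ, A = fun p => if p ≤ K then range p else Ap f (bd f z0 p r0) p := ⟨_, rfl⟩
  have hUk : ∀ p, #(bd f z0 p r0) ≤ k := fun p => (bd_card f z0 p r0).trans (ac_card z0 p)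
  have hsum : ∀ p n, (#(bd f z0 p r0) : ℝ) + #(ac (z n) p) ≤ 2 * k := by
    intro p n
    have h1 : #(bd f z0 p r0) + #(ac (z n) p) ≤ 2 * k := by
      have := hUk p
      have := ac_card (z n) p
      omega
    exact_mod_cast h1
  have hun : ∀ p n c, (#(bd f z0 p r0 ∪ bd f (z n) p c) : ℝ) ≤ (#(bd f z0 p r0) : ℝ) + #(ac (z n) p) := by
    intro p n c
    have h1 : #(bd f z0 p r0 ∪ bd f (z n) p c) ≤ #(bd f z0 p r0) + #(ac (z n) p) :=
      (card_union_le _ _).trans (Nat.add_le_add_left (bd_card f (z n) p c) _)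
    exact_mod_cast h1
  have e1 : DD y x (∏ p ∈ T, p) (fun n c => ∏ p ∈ T, (1 - (#(bd f z0 p r0 ∪ bd f (z n) p c) : ℝ) / p)) =
      DD y x (∏ p ∈ T, p) (fun n c => ∏ p ∈ T, (h p n c / p + g p n)) := by
    refine DD_congr fun n c => prod_congr rfl fun p hp => ?_
    have hp0 : (p : ℝ) ≠ 0 := by exact_mod_cast (hT p hp).ne_zero
    rw [hg, hh]
    simp only
    split_ifs
    · field_simp
      ring
    · field_simp
      ring
  rw [e1]
  refine prod_disc (A := A) hT ?_ ?_ ?_ ?_ ?_ ?_ ?_ ?_ ?_ y x hx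
  · -- antitone
    intro p hp n n' hn
    have hp0 : (0 : ℝ) < p := by exact_mod_cast (hT p hp).pos
    rw [hg]
    simp only
    split_ifs
    · exact le_rfl
    · have h1 : (#(ac (z n) p) : ℝ) ≤ #(ac (z n') p) := by exact_mod_cast card_le_card (hac n n' hn p)
      have h2 : ((#(bd f z0 p r0) : ℝ) + #(ac (z n) p)) / p ≤ ((#(bd f z0 p r0) : ℝ) + #(ac (z n') p)) / p :=
        div_le_div_of_nonneg_right (by linarith) hp0.le
      linarith
  · intro p hp n
    have hp0 : (0 : ℝ) < p := by exact_mod_cast (hT p hp).pos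
    rw [hg]
    simp only
    split_ifs with hpK
    · exact le_rfl
    · have h1 : (2 : ℝ) * k ≤ p := by
        have : 2 * k ≤ p := by omega
        exact_mod_cast this
      have h2 : ((#(bd f z0 p r0) : ℝ) + #(ac (z n) p)) / p ≤ 1 := by
        rw [div_le_one hp0]
        exact (hsum p n).trans h1
      linarith
  · intro p hp n
    rw [hg]
    simp only
    split_ifs with hpK
    · norm_num
    · have : 0 ≤ ((#(bd f z0 p r0) : ℝ) + #(ac (z n) p)) / p := by positivity
      linarith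
  · -- monotone
    intro p hp c n n' hn
    rw [hh]
    simp only
    split_ifs with hpK
    · have : bd f (z n) p c = bd f (z n') p c := by
        unfold bd
        rw [hacK n p hpK, hacK n' p hpK]
      rw [this]
    · have h1 : bd f z0 p r0 ∪ bd f (z n') p c ⊆ (bd f z0 p r0 ∪ bd f (z n) p c) ∪
          (ac (z n') p \ ac (z n) p).image (fun i => rs p ((f i).eval (c : ℤ))) := by
        intro b hb
        rw [mem_union] at hb
        rw [mem_union, mem_union]
        rcases hb with hb | hb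
        · exact Or.inl (Or.inl hb)
        · unfold bd at hb ⊢
          rw [mem_image] at hb
          obtain ⟨i, hi, rfl⟩ := hb
          by_cases h2 : i ∈ ac (z n) p
          · exact Or.inl (Or.inr (mem_image_of_mem _ h2))
          · exact Or.inr (mem_image_of_mem _ (mem_sdiff.2 ⟨hi, h2⟩))
      have h2 := (card_le_card h1).trans (card_union_le _ _)
      have h3 : #((ac (z n') p \ ac (z n) p).image (fun i => rs p ((f i).eval (c : ℤ)))) ≤
          #(ac (z n') p \ ac (z n) p) := card_image_le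
      have h4 : #(ac (z n') p \ ac (z n) p) + #(ac (z n) p) = #(ac (z n') p) := card_sdiff_add_card_eq_card (hac n n' hn p)
      have h5 : #(bd f z0 p r0 ∪ bd f (z n') p c) + #(ac (z n) p) ≤
          #(bd f z0 p r0 ∪ bd f (z n) p c) + #(ac (z n') p) := by omega
      have h6 : (#(bd f z0 p r0 ∪ bd f (z n') p c) : ℝ) + #(ac (z n) p) ≤
          #(bd f z0 p r0 ∪ bd f (z n) p c) + #(ac (z n') p) := by exact_mod_cast h5
      linarith
  · intro p hp n c
    rw [hh]
    simp only
    split_ifs with hpK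
    · have h1 : #(bd f z0 p r0 ∪ bd f (z n) p c) ≤ p := by
        have h2 := card_le_card (union_subset (bd_sub f z0 (hT p hp).pos r0) (bd_sub f (z n) (hT p hp).pos c))
        rwa [card_range] at h2
      have h2 : (#(bd f z0 p r0 ∪ bd f (z n) p c) : ℝ) ≤ p := by exact_mod_cast h1
      linarith
    · have := hun p n c
      linarith
  · intro p hp n c
    rw [hh]
    simp only
    have h0 : (0 : ℝ) ≤ #(bd f z0 p r0 ∪ bd f (z n) p c) := by positivity
    split_ifs with hpK
    · have : (p : ℝ) ≤ K := by exact_mod_cast hpK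
      linarith
    · have h1 := hsum p n
      have h2 : (2 : ℝ) * k ≤ K := by exact_mod_cast hK2.le
      linarith
  · intro p hp n c
    rw [hh]
    simp only
    rw [bd_per f (z n) (hT p hp).pos c]
  · intro p hp
    rw [hA]
    simp only
    split_ifs with hpK
    · rw [card_range]
      exact hpK
    · rw [hK]
      exact Ap_card hf hinj (hUk p) (hT p hp)
  · intro p hp n c hne
    have hpp := (hT p hp).pos
    rw [hA]
    simp only
    split_ifs with hpK
    · exact mem_range.2 (Nat.mod_lt _ hpp)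
    · by_contra hc
      apply hne
      have hmod : ∀ i, rs p ((f i).eval ((c % p : ℕ) : ℤ)) = rs p ((f i).eval (c : ℤ)) := by
        intro i
        rw [rs_eq_rs hpp]
        have h1 := Polynomial.sub_dvd_eval_sub ((c % p : ℕ) : ℤ) (c : ℤ) (f i)
        refine dvd_trans ?_ h1
        have : (p : ℤ) ∣ (c : ℤ) - (c : ℤ) % (p : ℤ) := Int.dvd_self_sub_emod
        rw [← Int.natCast_mod] at this
        exact dvd_sub_comm.1 this
      unfold Ap at hc
      rw [mem_filter, mem_range] at hc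
      push Not at hc
      obtain ⟨h1, h2⟩ := hc (Nat.mod_lt _ hpp)
      rw [hh]
      simp only
      rw [if_neg hpK]
      have hdis : Disjoint (bd f z0 p r0) (bd f (z n) p c) := by
        rw [Finset.disjoint_right]
        intro b hb
        unfold bd at hb
        rw [mem_image] at hb
        obtain ⟨i, _, rfl⟩ := hb
        have := h1 i
        rwa [hmod i] at this
      have hcard : #(bd f (z n) p c) = #(ac (z n) p) := by
        unfold bd
        refine card_image_of_injOn fun i _ j _ hij => ?_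
        by_contra hne2
        have := h2 i j hne2
        rw [hmod i, hmod j] at this
        exact this hij
      rw [card_union_of_disjoint hdis, hcard]
      push_cast
      ring

end Pool.Agent.L5helper2.BH
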