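import Pool.Agent.L5helper2.BH.A4
import Pool.Agent.L5helper2.RS.S8

/-! Project BH (helper2): the square-root law with moving levels. -/

set_option autoImplicit false

namespace Pool.Agent.L5helper2.BH

open Finset Polynomial MeasureTheory ProbabilityTheory Filter Topology
open Pool.Agent.L5helper2.RS (Vp Vp_eq Vp_pos Vs_low Vs_Vp crt_prod)

/-- the primes up to `M` -/
def pr (M : ℕ) : Finset ℕ := (Icc 1 M).filter Nat.Prime

lemma mem_pr {M p : ℕ} : p ∈ pr M ↔ p ≤ M ∧ p.Prime := by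
  unfold pr
  rw [mem_filter, mem_Icc]
  constructor
  · rintro ⟨⟨_, h2⟩, h3⟩
    exact ⟨h2, h3⟩
  · rintro ⟨h2, h3⟩
    exact ⟨⟨h3.pos, h2⟩, h3⟩

/-- the products are small -/
lemma prod_small (K : ℕ) {θ : ℝ} (hθ : 0 < θ) : ∃ C : ℝ, 0 < C ∧ ∀ Z : ℕ, 1 ≤ Z →
    ∏ p ∈ pr Z, (1 + (K : ℝ) ^ 2 / p) ≤ C * (Z : ℝ) ^ θ := by
  obtain ⟨C, hC, h⟩ := Vs_low (k := K ^ 2) θ hθ
  refine ⟨C, by linarith, fun Z hZ => ?_⟩
  refine le_trans ?_ (h Z hZ)
  rw [Vs_Vp, Vp_eq, ← prod_pow, ← prod_inv_distrib]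
  refine prod_le_prod (fun p _ => by positivity) fun p hp => ?_
  have hp2 : (2 : ℝ) ≤ p := by exact_mod_cast (mem_pr.1 hp).2.two_le
  have h1 : (0 : ℝ) < 1 - 1 / p := by
    have : 1 / (p : ℝ) ≤ 1 / 2 := one_div_le_one_div_of_le (by norm_num) hp2
    linarith
  have h2 : 1 + (K : ℝ) ^ 2 / p ≤ (1 + 1 / (p : ℝ)) ^ (K ^ 2) := by
    have := one_add_mul_le_pow (a := 1 / (p : ℝ)) (by
      have : 0 < 1 / (p : ℝ) := by positivity
      linarith) (K ^ 2)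
    push_cast at this
    rw [mul_one_div] at this
    exact this
  refine h2.trans ?_
  rw [← inv_pow]
  refine pow_le_pow_left₀ (by positivity) ?_ _
  rw [le_inv_comm₀ (by positivity) h1, ← one_div, le_div_iff₀ (by positivity)]
  have h5 : (1 - 1 / (p : ℝ)) * (1 + 1 / (p : ℝ)) = 1 - (1 / (p : ℝ)) ^ 2 := by ring
  rw [h5]
  have : 0 ≤ (1 / (p : ℝ)) ^ 2 := by positivity
  linarith

variable {k : ℕ} {Ω : Type} [MeasurableSpace Ω] {P : Measure Ω} {a : ℕ → Ω → ℕ}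

open Classical in
/-- the number of the arguments excluded by a residue -/
noncomputable def rh (f : Fin k → ℤ[X]) (z : Fin k → ℕ) (p b : ℕ) : ℕ :=
  #((range p).filter fun r : ℕ => ∃ i, p ≤ z i ∧ (p : ℤ) ∣ (f i).eval (r : ℤ) - b)

lemma rh_sv (f : Fin k → ℤ[X]) (z : Fin k → ℕ) {p : ℕ} (hp : 0 < p) (b : ℕ) :
    (1 / (p : ℝ)) * ∑ r ∈ range p, sv f z p r b = 1 - (rh f z p b : ℝ) / p := by
  classical
  have hp0 : (p : ℝ) ≠ 0 := by exact_mod_cast hp.ne'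
  have h1 : ∀ r ∈ range p, sv f z p r b = 1 - if ∃ i, p ≤ z i ∧ (p : ℤ) ∣ (f i).eval (r : ℤ) - b then 1 else 0 := by
    intro r _
    unfold sv
    by_cases h : ∃ i, p ≤ z i ∧ (p : ℤ) ∣ (f i).eval (r : ℤ) - b
    · rw [if_pos h, if_neg]
      · ring
      · push Not
        exact h
    · rw [if_neg h, if_pos]
      · ring
      · push Not at h
        exact h
  rw [sum_congr rfl h1, sum_sub_distrib, sum_const, card_range, nsmul_eq_mul, mul_one, sum_boole]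
  unfold rh
  field_simp

lemma sv_per (f : Fin k → ℤ[X]) (z : Fin k → ℕ) {p : ℕ} (r b : ℕ) :
    sv f z p (r + p) b = sv f z p r b := by
  classical
  unfold sv
  have : (∀ i, p ≤ z i → ¬ ((p : ℤ) ∣ (f i).eval (((r + p : ℕ)) : ℤ) - b)) ↔
      (∀ i, p ≤ z i → ¬ ((p : ℤ) ∣ (f i).eval (r : ℤ) - b)) := by
    refine forall_congr' fun i => imp_congr_right fun _ => not_congr ?_
    have h1 := Polynomial.sub_dvd_eval_sub ((r + p : ℕ) : ℤ) (r : ℤ) (f i)
    have e : ((r + p : ℕ) : ℤ) - r = p := by push_cast; ring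
    rw [e] at h1
    have e2 : (f i).eval (r : ℤ) - (b : ℤ) = ((f i).eval ((r + p : ℕ) : ℤ) - b) -
        ((f i).eval ((r + p : ℕ) : ℤ) - (f i).eval (r : ℤ)) := by ring
    rw [e2]
    exact (dvd_sub_left h1).symm
  simp only [this]

lemma sv_one (f : Fin k → ℤ[X]) {z : Fin k → ℕ} {p : ℕ} (hp : ∀ i, z i < p) (r b : ℕ) : sv f z p r b = 1 := by
  unfold sv
  rw [if_pos]
  intro i hi
  exact absurd hi (not_le.2 (hp i))

lemma rh_zero (f : Fin k → ℤ[X]) {z : Fin k → ℕ} {p : ℕ} (hp : ∀ i, z i < p) (b : ℕ) : rh f z p b = 0 := by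
  unfold rh
  rw [card_eq_zero, filter_eq_empty_iff]
  rintro r _ ⟨i, hi, _⟩
  exact absurd hi (not_le.2 (hp i))

/-- the indicator of the survival of `n` -/
noncomputable def Fn (f : Fin k → ℤ[X]) (z : Fin k → ℕ) (a : ℕ → Ω → ℕ) (n : ℕ) (ω : Ω) : ℝ :=
  ∏ p ∈ pr (univ.sup z), sv f z p n (a p ω)

/-- the density -/
noncomputable def Wn (f : Fin k → ℤ[X]) (z : Fin k → ℕ) (a : ℕ → Ω → ℕ) (ω : Ω) : ℝ :=
  ∏ p ∈ pr (univ.sup z), (1 - (rh f z p (a p ω) : ℝ) / p)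

lemma lt_of_not_pr {z : Fin k → ℕ} {p : ℕ} (hp : p.Prime) (h : p ∉ pr (univ.sup z)) (i : Fin k) : z i < p := by
  rw [mem_pr] at h
  have h1 : z i ≤ univ.sup z := le_sup (f := z) (mem_univ i)
  by_contra h2
  exact h ⟨(not_lt.1 h2).trans h1, hp⟩

lemma pr_prime {M p : ℕ} (h : p ∈ pr M) : p.Prime := (mem_pr.1 h).2

omit [MeasurableSpace Ω] in
lemma Fn_eq (f : Fin k → ℤ[X]) {z : Fin k → ℕ} {M : ℕ} (hM : ∀ i, z i ≤ M) (n : ℕ) (ω : Ω) :
    Fn f z a n ω = ∏ p ∈ pr M, sv f z p n (a p ω) := by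
  unfold Fn
  refine prod_subset ?_ ?_
  · intro p hp
    rw [mem_pr] at hp ⊢
    exact ⟨hp.1.trans (Finset.sup_le fun i _ => hM i), hp.2⟩
  · intro p hp hn
    exact sv_one f (lt_of_not_pr (pr_prime hp) hn) _ _

omit [MeasurableSpace Ω] in
lemma Wn_eq (f : Fin k → ℤ[X]) {z : Fin k → ℕ} {M : ℕ} (hM : ∀ i, z i ≤ M) (ω : Ω) :
    Wn f z a ω = ∏ p ∈ pr M, (1 - (rh f z p (a p ω) : ℝ) / p) := by
  unfold Wn
  refine prod_subset ?_ ?_
  · intro p hp
    rw [mem_pr] at hp ⊢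
    exact ⟨hp.1.trans (Finset.sup_le fun i _ => hM i), hp.2⟩
  · intro p hp hn
    rw [rh_zero f (lt_of_not_pr (pr_prime hp) hn)]
    simp

omit [MeasurableSpace Ω] in
lemma avg_Wn (f : Fin k → ℤ[X]) {z : Fin k → ℕ} {M : ℕ} (hM : ∀ i, z i ≤ M) (ω : Ω) :
    (1 / ((∏ p ∈ pr M, p : ℕ) : ℝ)) * ∑ c ∈ range (∏ p ∈ pr M, p), ∏ p ∈ pr M, sv f z p c (a p ω) = Wn f z a ω := by
  rw [Wn_eq f hM, crt_prod (pr M) (fun p c => sv f z p c (a p ω)) (fun p hp => pr_prime hp)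
    (fun p _ n => sv_per f z n _)]
  push_cast
  rw [one_div, ← prod_inv_distrib, ← prod_mul_distrib]
  refine prod_congr rfl fun p hp => ?_
  rw [← rh_sv f z (pr_prime hp).pos, one_div]

/-- the square-root law with moving levels -/
theorem sqrt_moving (h : Sys P a) {f : Fin k → ℤ[X]} (hf : ∀ i, 1 ≤ (f i).natDegree) (hinj : Function.Injective f)
    {z : ℕ → Fin k → ℕ} (hz : Monotone z) (hzK : ∀ n i, Kc f ≤ z n i)
    (hzA : ∃ A K0 : ℕ, ∀ K : ℕ, K0 ≤ K → ∀ n ≤ 2 ^ K, ∀ i, z n i ≤ (2 ^ K) ^ A) {ε : ℝ} (hε : 0 < ε) :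
    ∀ᵐ ω ∂P, ∀ᶠ x : ℕ in atTop, |∑ n ∈ Ioc 0 x, (Fn f (z n) a n ω - Wn f (z n) a ω)| ≤ (x : ℝ) ^ (1 / 2 + ε) := by
  have hP := h.prob
  obtain ⟨A, K0, hA⟩ := hzA
  have main := as_bound (P := P) (G := fun ω y L => ∑ n ∈ Ioc y (y + L), (Fn f (z n) a n ω - Wn f (z n) a ω))
    ?_ ?_ hε
  · filter_upwards [main] with ω hω
    filter_upwards [hω] with x hx
    rwa [Nat.zero_add] at hx
  · intro ω y L L'
    have e : Ioc y (y + (L + L')) = Ioc y (y + L) ∪ Ioc (y + L) (y + L + L') := by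
      ext m
      simp only [mem_union, mem_Ioc]
      omega
    have hdis : Disjoint (Ioc y (y + L)) (Ioc (y + L) (y + L + L')) := by
      rw [Finset.disjoint_left]
      intro m h1 h2
      rw [mem_Ioc] at h1 h2
      omega
    rw [e, sum_union hdis]
  · intro η hη
    obtain ⟨C, hC, hprod⟩ := prod_small (Kc f) (show 0 < η / (A + 1) by positivity)
    refine ⟨8 * C, K0, by positivity, fun K hK y L hL hyL δ hδ => ?_⟩
    obtain ⟨M, hM⟩ : ∃ M : ℕ, M = (2 ^ K) ^ A := ⟨_, rfl⟩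
    have hM1 : 1 ≤ M := by rw [hM]; exact Nat.pow_pos (Nat.pow_pos (by norm_num))
    have hzM : ∀ n ≤ 2 ^ K, ∀ i, z n i ≤ M := fun n hn i => by rw [hM]; exact hA K hK n hn i
    have hD0 : 0 < ∏ p ∈ pr M, p := Finset.prod_pos fun p hp => (pr_prime hp).pos
    obtain ⟨F, hF⟩ : ∃ F : ℕ → ℕ → Ω → ℝ, F = fun n c ω => ∏ p ∈ pr M, sv f (z n) p c (a p ω) := ⟨_, rfl⟩
    have hFm : ∀ n c, Measurable (F n c) := by
      intro n c
      rw [hF]
      exact h.prod_meas (pr M) (fun p => sv f (z n) p c)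
    have hF1 : ∀ n c ω, |F n c ω| ≤ 1 := by
      intro n c ω
      rw [hF, abs_of_nonneg (prod_nonneg fun p _ => (sv_01 _ _ _ _ _).1)]
      exact prod_le_one (fun p _ => (sv_01 _ _ _ _ _).1) fun p _ => (sv_01 _ _ _ _ _).2
    have hker : ∀ n c, |DD y (y + L) (∏ p ∈ pr M, p) (fun n' c' => ∫ ω, F n c ω * F n' c' ω ∂P)| ≤
        4 * (C * (M : ℝ) ^ (η / (A + 1))) := by
      intro n c
      have h1 := ker_bound hf hinj hz hzK (T := pr M) (fun p hp => pr_prime hp) (show y ≤ y + L by omega) (z n) c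
      have e1 : DD y (y + L) (∏ p ∈ pr M, p) (fun n' c' => ∫ ω, F n c ω * F n' c' ω ∂P) =
          DD y (y + L) (∏ p ∈ pr M, p) (fun n' c' => ∏ p ∈ pr M, (1 - (#(bd f (z n) p c ∪ bd f (z n') p c') : ℝ) / p)) := by
        refine DD_congr fun n' c' => ?_
        have e2 : ∀ ω, F n c ω * F n' c' ω = ∏ p ∈ pr M, (sv f (z n) p c (a p ω) * sv f (z n') p c' (a p ω)) := by
          intro ω
          rw [hF, prod_mul_distrib]
        simp only [e2]
        rw [h.int_prod (fun p hp => pr_prime hp) (fun p b => sv f (z n) p c b * sv f (z n') p c' b)]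
        exact prod_congr rfl fun p hp => mn_sv2 f (z n) (z n') (pr_prime hp).pos c c'
      rw [e1]
      exact h1.trans (mul_le_mul_of_nonneg_left (hprod M hM1) (by norm_num))
    have h2 := cheb hFm hF1 hD0 (show y ≤ y + L by omega) hker hδ
    have hset : ∀ ω, ∑ n ∈ Ioc y (y + L), (Fn f (z n) a n ω - Wn f (z n) a ω) =
        DD y (y + L) (∏ p ∈ pr M, p) (fun n c => F n c ω) := by
      intro ω
      unfold DD
      refine sum_congr rfl fun n hn => ?_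
      rw [mem_Ioc] at hn
      have hnM := hzM n (hn.2.trans hyL)
      simp only [hF]
      rw [avg_Wn f hnM, Fn_eq f hnM]
    simp only [hset]
    refine h2.trans ?_
    refine div_le_div_of_nonneg_right ?_ (by positivity)
    have h3 : (M : ℝ) ^ (η / (A + 1)) ≤ ((2 ^ K : ℕ) : ℝ) ^ η := by
      rw [hM]
      push_cast
      have h2K : (1 : ℝ) ≤ 2 ^ K := one_le_pow₀ (by norm_num)
      rw [← Real.rpow_natCast ((2 : ℝ) ^ K) A, ← Real.rpow_mul (by positivity)]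
      refine Real.rpow_le_rpow_of_exponent_le h2K ?_
      rw [mul_div_assoc', div_le_iff₀ (by positivity)]
      have : (0 : ℝ) ≤ A := by positivity
      nlinarith
    have h4 : ((y + L : ℕ) : ℝ) - y = L := by push_cast; ring
    rw [h4]
    calc 2 * (4 * (C * (M : ℝ) ^ (η / (A + 1)))) * L = 8 * C * L * (M : ℝ) ^ (η / (A + 1)) := by ring
      _ ≤ _ := mul_le_mul_of_nonneg_left h3 (by positivity)

end Pool.Agent.L5helper2.BH
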