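import Pool.Agent.L5helper2.BH.A5

/-! Project BH (helper2): the singular series. -/

set_option autoImplicit false

namespace Pool.Agent.L5helper2.BH

open Finset Polynomial MeasureTheory ProbabilityTheory Filter Topology
open Pool.Agent.L5helper2.RS (res_count)

variable {k : ℕ} {Ω : Type} [MeasurableSpace Ω] {P : Measure Ω} {a : ℕ → Ω → ℕ}

lemma rh_le (f : Fin k → ℤ[X]) (z : Fin k → ℕ) (p b : ℕ) : rh f z p b ≤ p := by
  unfold rh
  exact (card_filter_le _ _).trans (card_range p).le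

lemma rh_Kc {f : Fin k → ℤ[X]} (hf : ∀ i, 1 ≤ (f i).natDegree) (z : Fin k → ℕ) {p : ℕ} (hp : p.Prime) (b : ℕ) :
    rh f z p b ≤ Kc f := by
  classical
  have h1 : (range p).filter (fun r : ℕ => ∃ i, p ≤ z i ∧ (p : ℤ) ∣ (f i).eval (r : ℤ) - b) ⊆
      (univ : Finset (Fin k)).biUnion fun i => (range p).filter (fun y : ℕ => (p : ℤ) ∣ (b : ℤ) - (f i).eval (y : ℤ)) := by
    intro r hr
    rw [mem_filter] at hr
    obtain ⟨h1, i, _, h2⟩ := hr
    rw [mem_biUnion]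
    refine ⟨i, mem_univ _, ?_⟩
    rw [mem_filter]
    exact ⟨h1, dvd_sub_comm.1 h2⟩
  unfold rh
  refine (card_le_card h1).trans (card_biUnion_le.trans ?_)
  refine (sum_le_sum fun i _ => res_count (f i) (hf i) hp b).trans ?_
  rcases Nat.eq_zero_or_pos k with h0 | h0
  · subst h0
    simp
  · have := Nat.le_mul_of_pos_left (∑ i, ((f i).natDegree + (f i).leadingCoeff.natAbs)) h0
    unfold Kc
    omega

/-- the mean of the density at `p` -/
lemma mn_rh (f : Fin k → ℤ[X]) (z : Fin k → ℕ) {p : ℕ} (hp : 0 < p) :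
    mn p (fun b => 1 - (rh f z p b : ℝ) / p) = 1 - (∑ r ∈ range p, (#(bd f z p r) : ℝ)) / p ^ 2 := by
  have hp0 : (p : ℝ) ≠ 0 := by exact_mod_cast hp.ne'
  have h1 : mn p (fun b => 1 - (rh f z p b : ℝ) / p) = (1 / (p : ℝ)) * ∑ r ∈ range p, mn p (sv f z p r) := by
    unfold mn
    rw [mul_sum, mul_sum]
    have h2 : ∀ b ∈ range p, (1 / (p : ℝ)) * (1 - (rh f z p b : ℝ) / p) =
        (1 / (p : ℝ)) * ((1 / (p : ℝ)) * ∑ r ∈ range p, sv f z p r b) := fun b _ => by rw [rh_sv f z hp]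
    rw [sum_congr rfl h2, ← mul_sum, ← mul_sum, ← mul_sum, ← mul_sum, sum_comm]
  rw [h1, sum_congr rfl fun r _ => mn_sv f z hp r, sum_sub_distrib, sum_const, card_range, nsmul_eq_mul, mul_one,
    ← sum_div]
  field_simp

/-- the number of bad residues on average -/
lemma sum_bd {f : Fin k → ℤ[X]} (hf : ∀ i, 1 ≤ (f i).natDegree) (hinj : Function.Injective f) (z : Fin k → ℕ)
    {p : ℕ} (hp : p.Prime) : (#(ac z p) : ℝ) * p - k * Kc f ≤ ∑ r ∈ range p, (#(bd f z p r) : ℝ) ∧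
      ∑ r ∈ range p, (#(bd f z p r) : ℝ) ≤ #(ac z p) * p := by
  classical
  constructor
  · have h1 : ∀ r ∈ range p, (#(ac z p) : ℝ) - (if r ∈ Ap f ∅ p then (k : ℝ) else 0) ≤ #(bd f z p r) := by
      intro r hr
      split_ifs with h
      · have h2 : (#(ac z p) : ℝ) ≤ k := by exact_mod_cast ac_card z p
        have h3 : (0 : ℝ) ≤ #(bd f z p r) := by positivity
        linarith
      · have h2 : #(bd f z p r) = #(ac z p) := by
          unfold bd
          refine card_image_of_injOn fun i _ j _ hij => ?_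
          by_contra hne
          apply h
          unfold Ap
          rw [mem_filter]
          exact ⟨hr, Or.inr ⟨i, j, hne, hij⟩⟩
        rw [h2]
        simp
    have h2 := sum_le_sum h1
    rw [sum_sub_distrib, sum_const, card_range, nsmul_eq_mul, ← sum_filter, sum_const, nsmul_eq_mul] at h2
    have h3 : #((range p).filter (fun r => r ∈ Ap f ∅ p)) ≤ Kc f := by
      refine (card_le_card ?_).trans (Ap_card hf hinj (U := ∅) (by simp) hp)
      intro r hr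
      exact (mem_filter.1 hr).2
    have h4 : (#((range p).filter (fun r => r ∈ Ap f ∅ p)) : ℝ) ≤ Kc f := by exact_mod_cast h3
    have h5 : (#((range p).filter (fun r => r ∈ Ap f ∅ p)) : ℝ) * k ≤ Kc f * k :=
      mul_le_mul_of_nonneg_right h4 (by positivity)
    linarith
  · calc ∑ r ∈ range p, (#(bd f z p r) : ℝ) ≤ ∑ _r ∈ range p, (#(ac z p) : ℝ) :=
          sum_le_sum fun r _ => by exact_mod_cast bd_card f z p r
      _ = _ := by rw [sum_const, card_range, nsmul_eq_mul, mul_comm]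

/-- the normalised density at `p` -/
noncomputable def ph (f : Fin k → ℤ[X]) (z : Fin k → ℕ) (p b : ℕ) : ℝ :=
  (1 - (rh f z p b : ℝ) / p) / (1 - 1 / (p : ℝ)) ^ #(ac z p)

/-- the normalised density of a set of primes -/
noncomputable def tt (f : Fin k → ℤ[X]) (z : Fin k → ℕ) (a : ℕ → Ω → ℕ) (T : Finset ℕ) (ω : Ω) : ℝ :=
  ∏ p ∈ T, ph f z p (a p ω)

/-- the moments at one prime -/
lemma ph_moments {f : Fin k → ℤ[X]} (hf : ∀ i, 1 ≤ (f i).natDegree) (hinj : Function.Injective f) :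
    ∃ K : ℕ, 1 ≤ K ∧ ∀ (z : Fin k → ℕ) (p : ℕ), p.Prime → K ≤ p →
      1 - (K : ℝ) / p ^ 2 ≤ mn p (ph f z p) ∧ mn p (fun b => ph f z p b ^ 2) ≤ 1 + (K : ℝ) / p ^ 2 := by
  refine ⟨4 * k + k ^ 2 + 2 * (2 * k * Kc f + Kc f ^ 2) + 1, by omega, fun z p hp hpK => ?_⟩
  obtain ⟨κ, hκ⟩ : ∃ κ, κ = #(ac z p) := ⟨_, rfl⟩
  have hκk : κ ≤ k := by rw [hκ]; exact ac_card z p
  have hκr : (κ : ℝ) ≤ k := by exact_mod_cast hκk
  have hp0 : (0 : ℝ) < p := by exact_mod_cast hp.pos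
  have hp2 : (2 : ℝ) ≤ p := by exact_mod_cast hp.two_le
  have h4k : 4 * (k : ℝ) ≤ p := by
    have : 4 * k ≤ p := by omega
    exact_mod_cast this
  obtain ⟨V, hV⟩ : ∃ V : ℝ, V = (1 - 1 / (p : ℝ)) ^ κ := ⟨_, rfl⟩
  have hp1 : 1 / (p : ℝ) ≤ 1 / 2 := one_div_le_one_div_of_le (by norm_num) hp2
  have hV0 : 0 < V := by
    rw [hV]
    have : 0 < 1 - 1 / (p : ℝ) := by linarith
    positivity
  have hVl : 1 - κ / (p : ℝ) ≤ V := by
    rw [hV]
    have := one_add_mul_le_pow (a := -(1 / (p : ℝ))) (by linarith) κ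
    have e : 1 - κ / (p : ℝ) = 1 + (κ : ℝ) * -(1 / (p : ℝ)) := by ring
    rw [e]
    refine this.trans (le_of_eq ?_)
    congr 1
  have hVu : V * (1 + κ / (p : ℝ)) ≤ 1 := by
    have h1 : 1 + κ / (p : ℝ) ≤ (1 + 1 / (p : ℝ)) ^ κ := by
      have := one_add_mul_le_pow (a := 1 / (p : ℝ)) (by
        have : 0 < 1 / (p : ℝ) := by positivity
        linarith) κ
      rw [mul_one_div] at this
      exact this
    calc V * (1 + κ / (p : ℝ)) ≤ V * (1 + 1 / (p : ℝ)) ^ κ := mul_le_mul_of_nonneg_left h1 hV0.le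
      _ = ((1 - 1 / (p : ℝ)) * (1 + 1 / (p : ℝ))) ^ κ := by rw [hV, mul_pow]
      _ ≤ 1 := by
          refine pow_le_one₀ ?_ ?_
          · have h2 : 0 ≤ 1 - 1 / (p : ℝ) := by linarith
            positivity
          · have h5 : (1 - 1 / (p : ℝ)) * (1 + 1 / (p : ℝ)) = 1 - (1 / (p : ℝ)) ^ 2 := by ring
            rw [h5]
            have : 0 ≤ (1 / (p : ℝ)) ^ 2 := by positivity
            linarith
  obtain ⟨hb1, hb2⟩ := sum_bd hf hinj z hp
  have hm := mn_rh f z hp.pos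
  rw [← hκ] at hb1 hb2
  obtain ⟨m1, hm1⟩ : ∃ m1, m1 = mn p (fun b => 1 - (rh f z p b : ℝ) / p) := ⟨_, rfl⟩
  rw [← hm1] at hm
  have hm1l : 1 - κ / (p : ℝ) ≤ m1 := by
    rw [hm]
    have : (∑ r ∈ range p, (#(bd f z p r) : ℝ)) / p ^ 2 ≤ κ / p := by
      rw [div_le_div_iff₀ (by positivity) hp0]
      nlinarith
    linarith
  have hm1u : 1 - m1 ≥ κ / (p : ℝ) - k * Kc f / p ^ 2 := by
    rw [hm]
    have : κ / (p : ℝ) - k * Kc f / p ^ 2 = (κ * p - k * Kc f) / p ^ 2 := by field_simp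
    rw [this]
    have := div_le_div_of_nonneg_right hb1 (show (0 : ℝ) ≤ (p : ℝ) ^ 2 by positivity)
    linarith
  have e1 : mn p (ph f z p) = m1 / V := by
    rw [hm1, hV]
    unfold ph mn
    rw [← hκ, ← sum_div]
    ring
  have e2 : mn p (fun b => ph f z p b ^ 2) = mn p (fun b => (1 - (rh f z p b : ℝ) / p) ^ 2) / V ^ 2 := by
    rw [hV]
    unfold ph mn
    rw [← hκ]
    have : ∀ b ∈ range p, ((1 - (rh f z p b : ℝ) / p) / (1 - 1 / (p : ℝ)) ^ κ) ^ 2 =
        (1 - (rh f z p b : ℝ) / p) ^ 2 / ((1 - 1 / (p : ℝ)) ^ κ) ^ 2 := fun b _ => by rw [div_pow]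
    rw [sum_congr rfl this, ← sum_div]
    ring
  constructor
  · rw [e1, le_div_iff₀ hV0]
    have h1 : (1 - κ ^ 2 / (p : ℝ) ^ 2) * V ≤ m1 := by
      have e : (1 - κ ^ 2 / (p : ℝ) ^ 2) * V = (1 - κ / (p : ℝ)) * (V * (1 + κ / (p : ℝ))) := by ring
      rw [e]
      have h2 : 0 ≤ 1 - κ / (p : ℝ) := by
        have : κ / (p : ℝ) ≤ 1 := by
          rw [div_le_one hp0]
          linarith [(Nat.cast_nonneg k : (0 : ℝ) ≤ k)]
        linarith
      exact (mul_le_of_le_one_right h2 hVu).trans hm1l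
    refine le_trans (mul_le_mul_of_nonneg_right ?_ hV0.le) h1
    have h3 : (κ : ℝ) ^ 2 ≤ ((4 * k + k ^ 2 + 2 * (2 * k * Kc f + Kc f ^ 2) + 1 : ℕ) : ℝ) := by
      have h4 : κ ^ 2 ≤ k ^ 2 := Nat.pow_le_pow_left hκk 2
      have : κ ^ 2 ≤ 4 * k + k ^ 2 + 2 * (2 * k * Kc f + Kc f ^ 2) + 1 := by omega
      exact_mod_cast this
    have := div_le_div_of_nonneg_right h3 (show (0 : ℝ) ≤ (p : ℝ) ^ 2 by positivity)
    linarith
  · have h1 : mn p (fun b => (1 - (rh f z p b : ℝ) / p) ^ 2) ≤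
        1 - 2 * (κ / (p : ℝ) - k * Kc f / p ^ 2) + (Kc f : ℝ) ^ 2 / p ^ 2 := by
      have h2 : mn p (fun b => (1 - (rh f z p b : ℝ) / p) ^ 2) ≤
          mn p (fun b => 2 * (1 - (rh f z p b : ℝ) / p) - 1 + (Kc f : ℝ) ^ 2 / p ^ 2) := by
        unfold mn
        refine mul_le_mul_of_nonneg_left (sum_le_sum fun b _ => ?_) (by positivity)
        have h3 : (rh f z p b : ℝ) ≤ Kc f := by exact_mod_cast rh_Kc hf z hp b
        have h4 : ((rh f z p b : ℝ) / p) ^ 2 ≤ (Kc f : ℝ) ^ 2 / p ^ 2 := by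
          rw [div_pow]
          exact div_le_div_of_nonneg_right (pow_le_pow_left₀ (by positivity) h3 2) (by positivity)
        have e : (1 - (rh f z p b : ℝ) / p) ^ 2 = 2 * (1 - (rh f z p b : ℝ) / p) - 1 + ((rh f z p b : ℝ) / p) ^ 2 := by
          ring
        rw [e]
        linarith
      have h3 : mn p (fun b => 2 * (1 - (rh f z p b : ℝ) / p) - 1 + (Kc f : ℝ) ^ 2 / p ^ 2) =
          2 * m1 - 1 + (Kc f : ℝ) ^ 2 / p ^ 2 := by
        rw [hm1]
        unfold mn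
        rw [sum_add_distrib, sum_sub_distrib, ← mul_sum, sum_const, sum_const, card_range, nsmul_eq_mul, nsmul_eq_mul]
        field_simp
      rw [h3] at h2
      linarith
    rw [e2, div_le_iff₀ (by positivity)]
    refine h1.trans ?_
    have hV2 : 1 - 2 * (κ / (p : ℝ)) ≤ V ^ 2 := by
      rcases le_or_gt 0 (1 - κ / (p : ℝ)) with h | h
      · have := pow_le_pow_left₀ h hVl 2
        nlinarith [sq_nonneg (κ / (p : ℝ))]
      · nlinarith [sq_nonneg V]
    have hhalf : 1 / 2 ≤ V ^ 2 := by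
      have : 2 * (κ / (p : ℝ)) ≤ 1 / 2 := by
        rw [← mul_div_assoc, div_le_iff₀ hp0]
        linarith
      linarith
    have h5 : (2 * k * Kc f + Kc f ^ 2 : ℝ) / p ^ 2 ≤
        ((4 * k + k ^ 2 + 2 * (2 * k * Kc f + Kc f ^ 2) + 1 : ℕ) : ℝ) / p ^ 2 * V ^ 2 := by
      have h6 : 2 * (2 * k * Kc f + Kc f ^ 2 : ℝ) ≤ ((4 * k + k ^ 2 + 2 * (2 * k * Kc f + Kc f ^ 2) + 1 : ℕ) : ℝ) := by
        push_cast
        have : (0 : ℝ) ≤ k := by positivity
        nlinarith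
      have h7 := div_le_div_of_nonneg_right h6 (show (0 : ℝ) ≤ (p : ℝ) ^ 2 by positivity)
      have h8 : (0 : ℝ) ≤ ((4 * k + k ^ 2 + 2 * (2 * k * Kc f + Kc f ^ 2) + 1 : ℕ) : ℝ) / p ^ 2 := by positivity
      have h9 := mul_le_mul_of_nonneg_left hhalf h8
      have e : 2 * (2 * k * Kc f + Kc f ^ 2 : ℝ) / p ^ 2 = 2 * ((2 * k * Kc f + Kc f ^ 2 : ℝ) / p ^ 2) := by ring
      rw [e] at h7
      linarith
    have e3 : 1 - 2 * (κ / (p : ℝ) - k * Kc f / p ^ 2) + (Kc f : ℝ) ^ 2 / p ^ 2 =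
        1 - 2 * (κ / (p : ℝ)) + (2 * k * Kc f + Kc f ^ 2 : ℝ) / p ^ 2 := by ring
    rw [e3]
    linarith

lemma ph_nonneg (f : Fin k → ℤ[X]) (z : Fin k → ℕ) {p : ℕ} (hp : p.Prime) (b : ℕ) : 0 ≤ ph f z p b := by
  have hp0 : (0 : ℝ) < p := by exact_mod_cast hp.pos
  have hp1 : 1 / (p : ℝ) ≤ 1 := by
    rw [div_le_one hp0]
    exact_mod_cast hp.one_lt.le
  have h1 : (rh f z p b : ℝ) / p ≤ 1 := by
    rw [div_le_one hp0]
    exact_mod_cast rh_le f z p b
  unfold ph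
  exact div_nonneg (by linarith) (pow_nonneg (by linarith) _)

lemma ph_le (f : Fin k → ℤ[X]) (z : Fin k → ℕ) {p : ℕ} (hp : p.Prime) (b : ℕ) :
    ph f z p b ≤ 1 / (1 - 1 / (p : ℝ)) ^ #(ac z p) := by
  have hp2 : (2 : ℝ) ≤ p := by exact_mod_cast hp.two_le
  have hp1 : 1 / (p : ℝ) ≤ 1 / 2 := one_div_le_one_div_of_le (by norm_num) hp2
  have h1 : 0 ≤ (rh f z p b : ℝ) / p := by positivity
  unfold ph
  exact div_le_div_of_nonneg_right (by linarith) (pow_nonneg (by linarith) _)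

lemma prod_one_sub_ge {T : Finset ℕ} {u : ℕ → ℝ} (h0 : ∀ p ∈ T, 0 ≤ u p) (h1 : ∀ p ∈ T, u p ≤ 1) :
    1 - ∑ p ∈ T, u p ≤ ∏ p ∈ T, (1 - u p) := by
  classical
  induction T using Finset.induction_on with
  | empty => simp
  | insert q T hq ih =>
    have ih' := ih (fun p hp => h0 p (mem_insert_of_mem hp)) (fun p hp => h1 p (mem_insert_of_mem hp))
    rw [sum_insert hq, prod_insert hq]
    have h2 := h0 q (mem_insert_self _ _)
    have h3 := h1 q (mem_insert_self _ _)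
    have h4 : 0 ≤ ∑ p ∈ T, u p := sum_nonneg fun p hp => h0 p (mem_insert_of_mem hp)
    have h5 := mul_le_mul_of_nonneg_left ih' (sub_nonneg.2 h3)
    nlinarith

/-- the variance for large primes -/
theorem tt_var (h : Sys P a) {f : Fin k → ℤ[X]} (hf : ∀ i, 1 ≤ (f i).natDegree) (hinj : Function.Injective f) :
    ∃ (C : ℝ) (M0 : ℕ), 0 < C ∧ 1 ≤ M0 ∧ ∀ m : ℕ, M0 ≤ m → ∀ (z : Fin k → ℕ) (T : Finset ℕ), (∀ p ∈ T, p.Prime ∧ m ≤ p) →
      ∫ ω, (tt f z a T ω - 1) ^ 2 ∂P ≤ C * (m : ℝ) ^ (-(1 / 2) : ℝ) := by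
  have hP := h.prob
  obtain ⟨K, hK1, hK⟩ := ph_moments hf hinj
  obtain ⟨S0, hS0⟩ : ∃ S0 : ℝ, S0 = ∑' n : ℕ, (n : ℝ) ^ (-(3 / 2) : ℝ) := ⟨_, rfl⟩
  have hsum : Summable (fun n : ℕ => (n : ℝ) ^ (-(3 / 2) : ℝ)) := by
    rw [Real.summable_nat_rpow]
    norm_num
  have hS00 : 0 ≤ S0 := by
    rw [hS0]
    exact tsum_nonneg fun n => by positivity
  obtain ⟨S, hS⟩ : ∃ S : ℝ, S = K * S0 := ⟨_, rfl⟩
  have hSn : 0 ≤ S := by rw [hS]; positivity
  refine ⟨S * Real.exp S + 2 * S + 1, K, by positivity, hK1, fun m hm z T hT => ?_⟩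
  have hm1 : (1 : ℝ) ≤ m := by exact_mod_cast hK1.trans hm
  obtain ⟨u, hu⟩ : ∃ u : ℝ, u = (m : ℝ) ^ (-(1 / 2) : ℝ) := ⟨_, rfl⟩
  have hu0 : 0 < u := by rw [hu]; positivity
  have hu1 : u ≤ 1 := by
    rw [hu]
    exact Real.rpow_le_one_of_one_le_of_nonpos hm1 (by norm_num)
  have hsT : ∑ p ∈ T, (K : ℝ) / p ^ 2 ≤ u * S := by
    calc ∑ p ∈ T, (K : ℝ) / p ^ 2 ≤ ∑ p ∈ T, u * K * (p : ℝ) ^ (-(3 / 2) : ℝ) := by
          refine sum_le_sum fun p hp => ?_
          have hmp : (m : ℝ) ≤ p := by exact_mod_cast (hT p hp).2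
          have hp0 : (0 : ℝ) < p := by linarith
          have e : (K : ℝ) / p ^ 2 = (p : ℝ) ^ (-(1 / 2) : ℝ) * K * (p : ℝ) ^ (-(3 / 2) : ℝ) := by
            have e1 : (p : ℝ) ^ (-(1 / 2) : ℝ) * (p : ℝ) ^ (-(3 / 2) : ℝ) = ((p : ℝ) ^ 2)⁻¹ := by
              rw [← Real.rpow_add hp0, ← Real.rpow_natCast, ← Real.rpow_neg hp0.le]
              norm_num
            rw [mul_right_comm, e1]
            ring
          rw [e]
          refine mul_le_mul_of_nonneg_right (mul_le_mul_of_nonneg_right ?_ (by positivity)) (by positivity)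
          rw [hu]
          exact Real.rpow_le_rpow_of_nonpos (by linarith) hmp (by norm_num)
      _ = u * (K * ∑ p ∈ T, (p : ℝ) ^ (-(3 / 2) : ℝ)) := by rw [← mul_sum]; ring
      _ ≤ u * S := by
          rw [hS, hS0]
          refine mul_le_mul_of_nonneg_left (mul_le_mul_of_nonneg_left ?_ (by positivity)) hu0.le
          exact hsum.sum_le_tsum _ fun n _ => by positivity
  -- the first moment
  have hT' : ∀ p ∈ T, p.Prime := fun p hp => (hT p hp).1
  have e1 : ∫ ω, tt f z a T ω ∂P = ∏ p ∈ T, mn p (ph f z p) := h.int_prod hT' (fun p => ph f z p)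
  have e2 : ∫ ω, tt f z a T ω ^ 2 ∂P = ∏ p ∈ T, mn p (fun b => ph f z p b ^ 2) := by
    have e3 : ∀ ω, tt f z a T ω ^ 2 = ∏ p ∈ T, ph f z p (a p ω) ^ 2 := fun ω => by
      unfold tt
      rw [prod_pow]
    simp only [e3]
    exact h.int_prod hT' (fun p b => ph f z p b ^ 2)
  have h1 : 1 - u * S ≤ ∫ ω, tt f z a T ω ∂P := by
    rw [e1]
    have h2 : ∏ p ∈ T, (1 - (K : ℝ) / p ^ 2) ≤ ∏ p ∈ T, mn p (ph f z p) := by
      refine prod_le_prod (fun p hp => ?_) fun p hp => (hK z p (hT' p hp) (hm.trans (hT p hp).2)).1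
      have hKp : (K : ℝ) ≤ p := by exact_mod_cast hm.trans (hT p hp).2
      have hp1 : (1 : ℝ) ≤ p := by exact_mod_cast (hT' p hp).one_lt.le
      have : (K : ℝ) / p ^ 2 ≤ 1 := by
        rw [div_le_one (by positivity)]
        nlinarith
      linarith
    refine le_trans ?_ h2
    have h3 := prod_one_sub_ge (T := T) (u := fun p => (K : ℝ) / p ^ 2) (fun p _ => by positivity) (fun p hp => by
      have hKp : (K : ℝ) ≤ p := by exact_mod_cast hm.trans (hT p hp).2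
      have hp1 : (1 : ℝ) ≤ p := by exact_mod_cast (hT' p hp).one_lt.le
      rw [div_le_one (by positivity)]
      nlinarith)
    linarith
  have h2 : ∫ ω, tt f z a T ω ^ 2 ∂P ≤ Real.exp (u * S) := by
    rw [e2]
    calc ∏ p ∈ T, mn p (fun b => ph f z p b ^ 2) ≤ ∏ p ∈ T, (1 + (K : ℝ) / p ^ 2) := by
          refine prod_le_prod (fun p hp => ?_) fun p hp => (hK z p (hT' p hp) (hm.trans (hT p hp).2)).2
          unfold mn
          exact mul_nonneg (by positivity) (sum_nonneg fun b _ => sq_nonneg _)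
      _ ≤ ∏ p ∈ T, Real.exp ((K : ℝ) / p ^ 2) := by
          refine prod_le_prod (fun p _ => by positivity) fun p _ => ?_
          rw [add_comm]
          exact Real.add_one_le_exp _
      _ = Real.exp (∑ p ∈ T, (K : ℝ) / p ^ 2) := by rw [Real.exp_sum]
      _ ≤ _ := Real.exp_le_exp.2 hsT
  have hmeas : Measurable (tt f z a T) := h.prod_meas T (fun p => ph f z p)
  have hbd : ∀ ω, |tt f z a T ω| ≤ ∏ p ∈ T, 1 / (1 - 1 / (p : ℝ)) ^ #(ac z p) := by
    intro ω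
    unfold tt
    rw [abs_of_nonneg (prod_nonneg fun p hp => ph_nonneg f z (hT' p hp) _)]
    exact prod_le_prod (fun p hp => ph_nonneg f z (hT' p hp) _) fun p hp => ph_le f z (hT' p hp) _
  have i1 : Integrable (tt f z a T) P := by
    refine Integrable.of_bound hmeas.aestronglyMeasurable (∏ p ∈ T, 1 / (1 - 1 / (p : ℝ)) ^ #(ac z p)) ?_
    exact Eventually.of_forall fun ω => by rw [Real.norm_eq_abs]; exact hbd ω
  have i2 : Integrable (fun ω => tt f z a T ω ^ 2) P := by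
    refine Integrable.of_bound (hmeas.pow_const 2).aestronglyMeasurable ((∏ p ∈ T, 1 / (1 - 1 / (p : ℝ)) ^ #(ac z p)) ^ 2) ?_
    exact Eventually.of_forall fun ω => by
      rw [Real.norm_eq_abs, abs_pow]
      exact pow_le_pow_left₀ (abs_nonneg _) (hbd ω) 2
  have e : ∫ ω, (tt f z a T ω - 1) ^ 2 ∂P = ∫ ω, tt f z a T ω ^ 2 ∂P - (2 * ∫ ω, tt f z a T ω ∂P - 1) := by
    have e1 : ∀ ω, (tt f z a T ω - 1) ^ 2 = tt f z a T ω ^ 2 - (2 * tt f z a T ω - 1) := fun ω => by ring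
    simp only [e1]
    have i3 : Integrable (fun ω => 2 * tt f z a T ω - 1) P := (i1.const_mul 2).sub (integrable_const 1)
    rw [integral_sub i2 i3, integral_sub (i1.const_mul 2) (integrable_const 1), integral_const_mul]
    simp
  rw [e, ← hu]
  have h4 : Real.exp (u * S) - 1 ≤ u * S * Real.exp S := by
    have h5 : 1 - u * S ≤ Real.exp (-(u * S)) := by
      have := Real.add_one_le_exp (-(u * S))
      linarith
    have h6 : Real.exp (u * S) * Real.exp (-(u * S)) = 1 := by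
      rw [← Real.exp_add]
      simp
    have h7 : Real.exp (u * S) ≤ Real.exp S := Real.exp_le_exp.2 (mul_le_of_le_one_left hSn hu1)
    have h8 : Real.exp (u * S) * (1 - u * S) ≤ 1 :=
      (mul_le_mul_of_nonneg_left h5 (Real.exp_pos _).le).trans h6.le
    have h9 : u * S * Real.exp (u * S) ≤ u * S * Real.exp S := mul_le_mul_of_nonneg_left h7 (by positivity)
    linarith
  have h5 : (S * Real.exp S + 2 * S + 1) * u = u * S * Real.exp S + 2 * (u * S) + u := by ring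
  rw [h5]
  linarith

end Pool.Agent.L5helper2.BH
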