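import Pool.Agent.L5helper2.BH.A6

/-! Project BH (helper2): convergence of the singular series. -/

set_option autoImplicit false

namespace Pool.Agent.L5helper2.BH

open Finset Polynomial MeasureTheory ProbabilityTheory Filter Topology
open Pool.Agent.L5helper2.RS (lv lv_mono lv_pos log_lv log_ratio Vp Vp_eq Vp_pos Vp_ratio_lv prod_conv bc interp_anti)

variable {k : ℕ} {Ω : Type} [MeasurableSpace Ω] {P : Measure Ω} {a : ℕ → Ω → ℕ}

/-- tails -/
lemma tt_tail (h : Sys P a) {f : Fin k → ℤ[X]} (hf : ∀ i, 1 ≤ (f i).natDegree) (hinj : Function.Injective f)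
    {z : ℕ → Fin k → ℕ} {T : ℕ → Finset ℕ} (hT : ∀ n, ∀ p ∈ T n, p.Prime ∧ lv 16 n ≤ p) :
    ∀ᵐ ω ∂P, ∀ᶠ n : ℕ in atTop, |tt f (z n) a (T n) ω - 1| < 1 / ((n : ℝ) + 1) ^ 2 := by
  have hP := h.prob
  obtain ⟨C, M0, hC, hM0, hv⟩ := tt_var h hf hinj
  have hF : ∀ᶠ n : ℕ in atTop, P.real {ω | 1 / ((n : ℝ) + 1) ^ 2 ≤ |tt f (z n) a (T n) ω - 1|} ≤ C / ((n : ℝ) + 1) ^ 2 := by
    filter_upwards [((lv_mono (M := 16) (by norm_num)).tendsto_atTop).eventually_ge_atTop M0] with n hn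
    have hn0 : (0 : ℝ) < (n : ℝ) + 1 := by positivity
    have h1 := hv (lv 16 n) hn (z n) (T n) (hT n)
    have hmeas : Measurable (tt f (z n) a (T n)) := h.prod_meas (T n) (fun p => ph f (z n) p)
    have hbd : ∀ ω, |tt f (z n) a (T n) ω - 1| ≤ (∏ p ∈ T n, 1 / (1 - 1 / (p : ℝ)) ^ #(ac (z n) p)) + 1 := by
      intro ω
      have h2 : |tt f (z n) a (T n) ω| ≤ ∏ p ∈ T n, 1 / (1 - 1 / (p : ℝ)) ^ #(ac (z n) p) := by
        unfold tt
        rw [abs_of_nonneg (prod_nonneg fun p hp => ph_nonneg f (z n) (hT n p hp).1 _)]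
        exact prod_le_prod (fun p hp => ph_nonneg f (z n) (hT n p hp).1 _) fun p hp => ph_le f (z n) (hT n p hp).1 _
      refine (abs_sub _ _).trans ?_
      rw [abs_one]
      linarith
    have iF : Integrable (fun ω => (tt f (z n) a (T n) ω - 1) ^ 2) P := by
      refine Integrable.of_bound ((hmeas.sub_const 1).pow_const 2).aestronglyMeasurable
        (((∏ p ∈ T n, 1 / (1 - 1 / (p : ℝ)) ^ #(ac (z n) p)) + 1) ^ 2) ?_
      exact Eventually.of_forall fun ω => by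
        rw [Real.norm_eq_abs, abs_pow]
        exact pow_le_pow_left₀ (abs_nonneg _) (hbd ω) 2
    obtain ⟨δ, hδ⟩ : ∃ δ : ℝ, δ = 1 / ((n : ℝ) + 1) ^ 2 := ⟨_, rfl⟩
    have hδ0 : 0 < δ := by rw [hδ]; positivity
    have hm := mul_meas_ge_le_integral_of_nonneg (μ := P) (f := fun ω => (tt f (z n) a (T n) ω - 1) ^ 2)
      (Filter.Eventually.of_forall fun ω => sq_nonneg _) iF (δ ^ 2)
    have hset : {ω | δ ≤ |tt f (z n) a (T n) ω - 1|} = {ω | δ ^ 2 ≤ (tt f (z n) a (T n) ω - 1) ^ 2} := by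
      ext ω
      simp only [Set.mem_ofPred_eq]
      rw [← sq_abs (tt f (z n) a (T n) ω - 1)]
      constructor
      · intro h1
        exact pow_le_pow_left₀ hδ0.le h1 2
      · intro h1
        exact (pow_le_pow_iff_left₀ hδ0.le (abs_nonneg _) (by norm_num)).1 h1
    rw [← hδ, hset]
    have h3 := hm.trans h1
    have e : ((lv 16 n : ℕ) : ℝ) ^ (-(1 / 2) : ℝ) = (((n : ℝ) + 1) ^ 8)⁻¹ := by
      unfold lv
      push_cast
      rw [← Real.rpow_natCast, ← Real.rpow_mul hn0.le, ← Real.rpow_natCast, ← Real.rpow_neg hn0.le]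
      norm_num
    rw [e] at h3
    have h4 : C * (((n : ℝ) + 1) ^ 8)⁻¹ = δ ^ 2 * (C / ((n : ℝ) + 1) ^ 4) := by
      rw [hδ]
      field_simp
    rw [h4] at h3
    have h5 := le_of_mul_le_mul_left h3 (by positivity)
    refine h5.trans (div_le_div_of_nonneg_left hC.le (by positivity) ?_)
    exact pow_le_pow_right₀ (by linarith [(Nat.cast_nonneg n : (0 : ℝ) ≤ n)]) (by norm_num)
  filter_upwards [bc hF] with ω hω
  filter_upwards [hω] with n hn
  simpa only [Set.mem_ofPred_eq, not_le] using hn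

open Classical in
/-- the number of excluded arguments, all components -/
noncomputable def rF (f : Fin k → ℤ[X]) (p b : ℕ) : ℕ :=
  #((range p).filter fun r : ℕ => ∃ i, (p : ℤ) ∣ (f i).eval (r : ℤ) - b)

lemma rF_le (f : Fin k → ℤ[X]) (p b : ℕ) : rF f p b ≤ p := by
  unfold rF
  exact (card_filter_le _ _).trans (card_range p).le

lemma rh_full (f : Fin k → ℤ[X]) {z : Fin k → ℕ} {p : ℕ} (hp : ∀ i, p ≤ z i) (b : ℕ) : rh f z p b = rF f p b := by
  unfold rh rF
  congr 1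
  refine filter_congr fun r _ => exists_congr fun i => ?_
  exact and_iff_right (hp i)

lemma ac_full {z : Fin k → ℕ} {p : ℕ} (hp : ∀ i, p ≤ z i) : #(ac z p) = k := by
  unfold ac
  rw [filter_true_of_mem fun i _ => hp i]
  simp

/-- the primes in `(m, n]` -/
def pj (m n : ℕ) : Finset ℕ := (Ioc m n).filter Nat.Prime

lemma mem_pj {m n p : ℕ} : p ∈ pj m n ↔ (m < p ∧ p ≤ n) ∧ p.Prime := by
  unfold pj
  rw [mem_filter, mem_Ioc]

/-- the density of the survivors, all components -/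
noncomputable def wF (f : Fin k → ℤ[X]) (a : ℕ → Ω → ℕ) (m n : ℕ) (ω : Ω) : ℝ :=
  ∏ p ∈ pj m n, (1 - (rF f p (a p ω) : ℝ) / p)

/-- the product of Mertens -/
noncomputable def vF (m n : ℕ) : ℝ := ∏ p ∈ pj m n, (1 - 1 / (p : ℝ))

/-- the normalised density, all components -/
noncomputable def tF (f : Fin k → ℤ[X]) (a : ℕ → Ω → ℕ) (m n : ℕ) (ω : Ω) : ℝ :=
  wF f a m n ω / vF m n ^ k

lemma pj_split {m w n : ℕ} (h1 : m ≤ w) (h2 : w ≤ n) : pj m n = pj m w ∪ pj w n ∧ Disjoint (pj m w) (pj w n) := by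
  constructor
  · ext p
    rw [mem_union, mem_pj, mem_pj, mem_pj]
    constructor
    · rintro ⟨⟨h3, h4⟩, h5⟩
      rcases le_or_gt p w with h6 | h6
      · exact Or.inl ⟨⟨h3, h6⟩, h5⟩
      · exact Or.inr ⟨⟨h6, h4⟩, h5⟩
    · rintro (⟨⟨h3, h4⟩, h5⟩ | ⟨⟨h3, h4⟩, h5⟩)
      · exact ⟨⟨h3, h4.trans h2⟩, h5⟩
      · exact ⟨⟨lt_of_le_of_lt h1 h3, h4⟩, h5⟩
  · rw [Finset.disjoint_left]
    intro p h3 h4
    rw [mem_pj] at h3 h4
    omega

omit [MeasurableSpace Ω] in
lemma wF_split (f : Fin k → ℤ[X]) {m w n : ℕ} (h1 : m ≤ w) (h2 : w ≤ n) (ω : Ω) :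
    wF f a m n ω = wF f a m w ω * wF f a w n ω := by
  unfold wF
  rw [(pj_split h1 h2).1, prod_union (pj_split h1 h2).2]

lemma vF_split {m w n : ℕ} (h1 : m ≤ w) (h2 : w ≤ n) : vF m n = vF m w * vF w n := by
  unfold vF
  rw [(pj_split h1 h2).1, prod_union (pj_split h1 h2).2]

lemma vF_pos (m n : ℕ) : 0 < vF m n := by
  unfold vF
  refine prod_pos fun p hp => ?_
  have hp2 : (2 : ℝ) ≤ p := by exact_mod_cast (mem_pj.1 hp).2.two_le
  have hp1 : 1 / (p : ℝ) ≤ 1 / 2 := one_div_le_one_div_of_le (by norm_num) hp2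
  linarith

lemma vF_zero (n : ℕ) : vF 0 n = Vp n := by
  rw [Vp_eq]
  rfl

omit [MeasurableSpace Ω] in
lemma tF_split (f : Fin k → ℤ[X]) {m w n : ℕ} (h1 : m ≤ w) (h2 : w ≤ n) (ω : Ω) :
    tF f a m n ω = tF f a m w ω * tF f a w n ω := by
  unfold tF
  rw [wF_split f h1 h2, vF_split h1 h2, mul_pow]
  have := vF_pos m w
  have := vF_pos w n
  field_simp

omit [MeasurableSpace Ω] in
lemma tF_eq (f : Fin k → ℤ[X]) (m n : ℕ) {z : Fin k → ℕ} (hz : ∀ i, n ≤ z i) (ω : Ω) :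
    tF f a m n ω = tt f z a (pj m n) ω := by
  unfold tF tt wF vF
  rw [← prod_pow, ← prod_div_distrib]
  refine prod_congr rfl fun p hp => ?_
  have hp2 : ∀ i, p ≤ z i := fun i => (mem_pj.1 hp).1.2.trans (hz i)
  unfold ph
  rw [rh_full f hp2, ac_full hp2]

omit [MeasurableSpace Ω] in
lemma wF_nonneg (f : Fin k → ℤ[X]) (m n : ℕ) (ω : Ω) : 0 ≤ wF f a m n ω := by
  unfold wF
  refine prod_nonneg fun p hp => ?_
  have hp0 : (0 : ℝ) < p := by exact_mod_cast (mem_pj.1 hp).2.pos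
  have h1 : (rF f p (a p ω) : ℝ) / p ≤ 1 := by
    rw [div_le_one hp0]
    exact_mod_cast rF_le f p _
  linarith

omit [MeasurableSpace Ω] in
lemma wF_le (f : Fin k → ℤ[X]) (m n : ℕ) (ω : Ω) : wF f a m n ω ≤ 1 := by
  unfold wF
  refine prod_le_one (fun p hp => ?_) fun p hp => ?_
  · have hp0 : (0 : ℝ) < p := by exact_mod_cast (mem_pj.1 hp).2.pos
    have h1 : (rF f p (a p ω) : ℝ) / p ≤ 1 := by
      rw [div_le_one hp0]
      exact_mod_cast rF_le f p _
    linarith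
  · have : 0 ≤ (rF f p (a p ω) : ℝ) / p := by positivity
    linarith

lemma pj_empty {m n : ℕ} (h : n ≤ m) : pj m n = ∅ := by
  ext p
  rw [mem_pj]
  constructor
  · rintro ⟨⟨h1, h2⟩, _⟩
    omega
  · intro h'
    simp at h'

omit [MeasurableSpace Ω] in
lemma wF_anti (f : Fin k → ℤ[X]) (m : ℕ) (ω : Ω) : Antitone (fun n => wF f a m n ω) := by
  intro n n' hn
  simp only
  rcases le_or_gt m n with h | h
  · rw [wF_split f h hn]
    exact mul_le_of_le_one_right (wF_nonneg f m n ω) (wF_le f n n' ω)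
  · have : wF f a m n ω = 1 := by
      unfold wF
      rw [pj_empty h.le, prod_empty]
    rw [this]
    exact wF_le f m n' ω

lemma vF_le (m n : ℕ) : vF m n ≤ 1 := by
  unfold vF
  refine prod_le_one (fun p hp => ?_) fun p hp => ?_
  · have hp2 : (2 : ℝ) ≤ p := by exact_mod_cast (mem_pj.1 hp).2.two_le
    have hp1 : 1 / (p : ℝ) ≤ 1 / 2 := one_div_le_one_div_of_le (by norm_num) hp2
    linarith
  · have : 0 ≤ 1 / (p : ℝ) := by positivity
    linarith

lemma vF_anti (m : ℕ) : Antitone (fun n => vF m n) := by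
  intro n n' hn
  simp only
  rcases le_or_gt m n with h | h
  · rw [vF_split h hn]
    exact mul_le_of_le_one_right (vF_pos m n).le (vF_le n n')
  · have : vF m n = 1 := by
      unfold vF
      rw [pj_empty h.le, prod_empty]
    rw [this]
    exact vF_le m n'

/-- the singular series converges, and its tail is positive -/
theorem sing_one (h : Sys P a) {f : Fin k → ℤ[X]} (hf : ∀ i, 1 ≤ (f i).natDegree) (hinj : Function.Injective f) :
    ∀ᵐ ω ∂P, ∃ (m : ℕ) (T : ℝ), 0 < T ∧ Tendsto (fun n => tF f a m n ω) atTop (𝓝 T) := by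
  have hmono := lv_mono (M := 16) (by norm_num)
  have h1 := tt_tail h hf hinj (z := fun n _ => lv 16 (n + 1)) (T := fun n => pj (lv 16 n) (lv 16 (n + 1)))
    (fun n p hp => ⟨(mem_pj.1 hp).2, (mem_pj.1 hp).1.1.le⟩)
  filter_upwards [h1] with ω hω
  obtain ⟨J, hJ⟩ := eventually_atTop.1 hω
  obtain ⟨J0, hJ0⟩ : ∃ J0, J0 = J + 1 := ⟨_, rfl⟩
  obtain ⟨g, hg⟩ : ∃ g : ℕ → ℝ, g = fun i : ℕ => tF f a (lv 16 (J0 + i)) (lv 16 (J0 + i + 1)) ω := ⟨_, rfl⟩
  have hg1 : ∀ n, |g n - 1| ≤ 1 / ((n : ℝ) + 2) ^ 2 := by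
    intro n
    have h2 := hJ (J0 + n) (by omega)
    rw [← tF_eq f (lv 16 (J0 + n)) (lv 16 (J0 + n + 1)) (fun _ => le_rfl)] at h2
    rw [hg]
    refine h2.le.trans ?_
    refine one_div_le_one_div_of_le (by positivity) ?_
    have h3 : (n : ℝ) + 2 ≤ ((J0 + n : ℕ) : ℝ) + 1 := by
      rw [hJ0]
      push_cast
      have : (0 : ℝ) ≤ J := by positivity
      linarith
    exact pow_le_pow_left₀ (by positivity) h3 2
  obtain ⟨T, hT, hlim⟩ := prod_conv hg1
  obtain ⟨m, hm⟩ : ∃ m, m = lv 16 J0 := ⟨_, rfl⟩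
  refine ⟨m, T, hT, ?_⟩
  have hprod : ∀ i, tF f a m (lv 16 (J0 + i)) ω = ∏ j ∈ range i, g j := by
    intro i
    induction i with
    | zero =>
      rw [Nat.add_zero, ← hm, prod_range_zero]
      unfold tF wF vF
      rw [pj_empty le_rfl]
      simp
    | succ i ih =>
      rw [prod_range_succ, ← ih, hg]
      rw [← Nat.add_assoc]
      refine tF_split f ?_ (hmono.monotone (by omega)) ω
      rw [hm]
      exact hmono.monotone (by omega)
  have hns : StrictMono (fun i : ℕ => lv 16 (J0 + i)) := fun a b hab => hmono (by omega)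
  refine interp_anti hns (f := fun n => wF f a m n ω) (g := fun n => vF m n ^ k)
    (wF_anti f m ω) (fun n => wF_nonneg f m n ω)
    (fun n n' hn => pow_le_pow_left₀ (vF_pos m n').le (vF_anti m hn) k) (fun n => pow_pos (vF_pos m n) k) ?_ ?_
  · have h2 := ((Vp_ratio_lv (M := 16) (by norm_num)).comp (tendsto_add_atTop_nat J0)).pow k
    rw [one_pow] at h2
    refine h2.congr fun i => ?_
    simp only [Function.comp]
    have h3 : m ≤ lv 16 (J0 + i) := by
      rw [hm]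
      exact hmono.monotone (by omega)
    have h4 : m ≤ lv 16 (J0 + (i + 1)) := by
      rw [hm]
      exact hmono.monotone (by omega)
    have h5 := vF_split (Nat.zero_le m) h3
    have h6 := vF_split (Nat.zero_le m) h4
    have h7 := vF_pos 0 m
    have h8 := vF_pos m (lv 16 (J0 + i))
    have e1 : i + J0 + 1 = J0 + (i + 1) := by omega
    have e2 : i + J0 = J0 + i := by omega
    rw [e1, e2, ← vF_zero, ← vF_zero, h5, h6, mul_div_mul_left _ _ h7.ne', div_pow]
  · refine hlim.congr fun i => ?_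
    rw [← hprod i]
    rfl

end Pool.Agent.L5helper2.BH
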