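import Pool.Agent.L5helper2.BH.A7
import Pool.Agent.L5helper2.RS.S10

/-! Project BH (helper2): the law with moving levels. -/

set_option autoImplicit false

namespace Pool.Agent.L5helper2.BH

open Finset Polynomial MeasureTheory ProbabilityTheory Filter Topology
open Pool.Agent.L5helper2.RS (lv lv_mono lv_pos log_lv log_ratio Vp Vp_eq Vp_pos Vp_le Vp_anti Vp_mertens bc interp_anti
  log_pow_div)

/-- means of slowly varying antitone functions -/
lemma cesaro {u : ℕ → ℝ} (hu : Antitone u) (h0 : ∀ n, 0 ≤ u n) (h1 : ∀ n, u n ≤ 1) {k : ℕ} {L : ℝ}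
    (hL : Tendsto (fun n : ℕ => u n * Real.log n ^ k) atTop (𝓝 L)) :
    Tendsto (fun x : ℕ => (∑ n ∈ Ioc 0 x, u n) * Real.log x ^ k / x) atTop (𝓝 L) := by
  have hlog : Tendsto (fun x : ℕ => Real.log x) atTop atTop := Real.tendsto_log_atTop.comp tendsto_natCast_atTop_atTop
  -- the point of division
  obtain ⟨Y, hY⟩ : ∃ Y : ℕ → ℝ, Y = fun x : ℕ => (x : ℝ) / Real.log x ^ (k + 1) := ⟨_, rfl⟩
  have hYt : Tendsto Y atTop atTop := by
    have h2 := (log_pow_div (k := k + 1))
    have h3 : ∀ᶠ x : ℕ in atTop, 0 < Real.log x ^ (k + 1) / (x : ℝ) := by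
      filter_upwards [hlog.eventually_gt_atTop 0, eventually_gt_atTop 0] with x hx hx2
      have : (0 : ℝ) < x := by exact_mod_cast hx2
      positivity
    have h4 := tendsto_inv_nhdsGT_zero.comp (tendsto_nhdsWithin_iff.2 ⟨h2, h3⟩)
    refine h4.congr fun x => ?_
    simp only [Function.comp]
    rw [hY, inv_div]
  obtain ⟨y, hy⟩ : ∃ y : ℕ → ℕ, y = fun x => ⌊Y x⌋₊ := ⟨_, rfl⟩
  have hyt : Tendsto y atTop atTop := by rw [hy]; exact tendsto_nat_floor_atTop.comp hYt
  have hratio : Tendsto (fun x : ℕ => Real.log (y x) / Real.log x) atTop (𝓝 1) := by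
    have h2 : Tendsto (fun x : ℕ => 1 - (((k : ℝ) + 1) * (Real.log (Real.log x) / Real.log x) + Real.log 2 / Real.log x))
        atTop (𝓝 1) := by
      have h3 : Tendsto (fun x : ℕ => Real.log (Real.log x) / Real.log x) atTop (𝓝 0) :=
        (Real.isLittleO_log_id_atTop.tendsto_div_nhds_zero).comp hlog
      have h4 : Tendsto (fun x : ℕ => Real.log 2 / Real.log x) atTop (𝓝 0) := tendsto_const_nhds.div_atTop hlog
      have h5 := ((h3.const_mul ((k : ℝ) + 1)).add h4).const_sub 1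
      rw [mul_zero, add_zero, sub_zero] at h5
      exact h5
    refine tendsto_of_tendsto_of_tendsto_of_le_of_le' h2 tendsto_const_nhds ?_ ?_
    · filter_upwards [hYt.eventually_ge_atTop 1, hlog.eventually_gt_atTop 0, eventually_gt_atTop 0] with x hx1 hx2 hx3
      have hx0 : (0 : ℝ) < x := by exact_mod_cast hx3
      have h3 : Y x / 2 ≤ y x := by
        rw [hy]
        have h4 := Nat.lt_floor_add_one (Y x)
        have h5 : (1 : ℝ) ≤ ⌊Y x⌋₊ := by exact_mod_cast Nat.le_floor (by exact_mod_cast hx1 : ((1 : ℕ) : ℝ) ≤ Y x)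
        simp only
        linarith
      have hY0 : 0 < Y x := by linarith
      have h4 : Real.log (Y x / 2) ≤ Real.log (y x) := Real.log_le_log (by linarith) h3
      have h5 : Real.log (Y x / 2) = Real.log x - (k + 1) * Real.log (Real.log x) - Real.log 2 := by
        rw [Real.log_div hY0.ne' (by norm_num), hY]
        simp only
        rw [Real.log_div hx0.ne' (by positivity), Real.log_pow]
        push_cast
        ring
      rw [h5] at h4
      rw [le_div_iff₀ hx2]
      have e : (1 - (((k : ℝ) + 1) * (Real.log (Real.log x) / Real.log x) + Real.log 2 / Real.log x)) * Real.log x =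
          Real.log x - (k + 1) * Real.log (Real.log x) - Real.log 2 := by
        field_simp
        ring
      rw [e]
      exact h4
    · filter_upwards [hyt.eventually_ge_atTop 1, hlog.eventually_ge_atTop 1, hYt.eventually_ge_atTop 1,
        eventually_gt_atTop 0] with x hx1 hx2 hx3 hx4
      have hx0 : (0 : ℝ) < x := by exact_mod_cast hx4
      rw [div_le_one (by linarith)]
      have hy1 : (1 : ℝ) ≤ y x := by exact_mod_cast hx1
      refine Real.log_le_log (by linarith) ?_
      have h3 : (y x : ℝ) ≤ Y x := by rw [hy]; exact Nat.floor_le (by linarith)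
      refine h3.trans ?_
      rw [hY]
      exact div_le_self hx0.le (one_le_pow₀ hx2)
  -- the lower bound
  have hlow : ∀ᶠ x : ℕ in atTop, u x * Real.log x ^ k ≤ (∑ n ∈ Ioc 0 x, u n) * Real.log x ^ k / x := by
    filter_upwards [eventually_gt_atTop 0] with x hx
    have hx0 : (0 : ℝ) < x := by exact_mod_cast hx
    have h2 : (x : ℝ) * u x ≤ ∑ n ∈ Ioc 0 x, u n := by
      calc (x : ℝ) * u x = ∑ _n ∈ Ioc 0 x, u x := by simp
        _ ≤ _ := sum_le_sum fun n hn => hu (mem_Ioc.1 hn).2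
    rw [le_div_iff₀ hx0]
    have h3 := mul_le_mul_of_nonneg_right h2 (pow_nonneg (Real.log_natCast_nonneg x) k)
    linarith
  -- the upper bound
  have hupp : ∀ᶠ x : ℕ in atTop, (∑ n ∈ Ioc 0 x, u n) * Real.log x ^ k / x ≤
      1 / Real.log x + u (y x) * Real.log (y x) ^ k * (Real.log (y x) / Real.log x)⁻¹ ^ k := by
    filter_upwards [hlog.eventually_ge_atTop 1, eventually_gt_atTop 0, hYt.eventually_ge_atTop 1,
      (Real.tendsto_log_atTop.comp (tendsto_natCast_atTop_atTop.comp hyt)).eventually_gt_atTop 0] with x hx1 hx2 hx3 hx4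
    simp only [Function.comp] at hx4
    have hx0 : (0 : ℝ) < x := by exact_mod_cast hx2
    have hyx : y x ≤ x := by
      have h3 : (y x : ℝ) ≤ Y x := by rw [hy]; exact Nat.floor_le (by linarith)
      have h4 : Y x ≤ x := by
        rw [hY]
        exact div_le_self hx0.le (one_le_pow₀ hx1)
      exact_mod_cast h3.trans h4
    have hyY : (y x : ℝ) ≤ Y x := by rw [hy]; exact Nat.floor_le (by linarith)
    have h2 : ∑ n ∈ Ioc 0 x, u n ≤ y x + x * u (y x) := by
      have e : Ioc 0 x = Ioc 0 (y x) ∪ Ioc (y x) x := by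
        ext m
        simp only [mem_union, mem_Ioc]
        omega
      have hdis : Disjoint (Ioc 0 (y x)) (Ioc (y x) x) := by
        rw [Finset.disjoint_left]
        intro m h1 h2
        rw [mem_Ioc] at h1 h2
        omega
      rw [e, sum_union hdis]
      refine add_le_add ?_ ?_
      · calc ∑ n ∈ Ioc 0 (y x), u n ≤ ∑ _n ∈ Ioc 0 (y x), (1 : ℝ) := sum_le_sum fun n _ => h1 n
          _ = y x := by simp
      · calc ∑ n ∈ Ioc (y x) x, u n ≤ ∑ _n ∈ Ioc (y x) x, u (y x) := sum_le_sum fun n hn => hu (mem_Ioc.1 hn).1.le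
          _ = ((x - y x : ℕ) : ℝ) * u (y x) := by simp
          _ ≤ x * u (y x) := by
              refine mul_le_mul_of_nonneg_right ?_ (h0 _)
              exact_mod_cast Nat.sub_le _ _
    have hlk : 0 ≤ Real.log x ^ k := pow_nonneg (Real.log_natCast_nonneg x) k
    rw [div_le_iff₀ hx0]
    refine (mul_le_mul_of_nonneg_right h2 hlk).trans ?_
    have h3 : (y x : ℝ) * Real.log x ^ k ≤ 1 / Real.log x * x := by
      calc (y x : ℝ) * Real.log x ^ k ≤ Y x * Real.log x ^ k := mul_le_mul_of_nonneg_right hyY hlk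
        _ = 1 / Real.log x * x := by
            rw [hY]
            simp only
            have : Real.log x ≠ 0 := by linarith
            rw [pow_succ]
            field_simp
    have h4 : u (y x) * Real.log (y x) ^ k * (Real.log (y x) / Real.log x)⁻¹ ^ k = u (y x) * Real.log x ^ k := by
      have h5 : Real.log x ≠ 0 := by linarith
      have h6 : Real.log (y x) ≠ 0 := hx4.ne'
      rw [mul_assoc, ← mul_pow]
      congr 2
      field_simp
    rw [h4]
    linarith
  have hU : Tendsto (fun x : ℕ => 1 / Real.log x + u (y x) * Real.log (y x) ^ k * (Real.log (y x) / Real.log x)⁻¹ ^ k)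
      atTop (𝓝 L) := by
    have h2 := (tendsto_const_nhds (x := (1 : ℝ))).div_atTop hlog
    have h3 := (hL.comp hyt).mul ((hratio.inv₀ one_ne_zero).pow k)
    rw [inv_one, one_pow, mul_one] at h3
    have h4 := h2.add h3
    rw [zero_add] at h4
    exact h4
  exact tendsto_of_tendsto_of_tendsto_of_le_of_le' hL hU hlow hupp

variable {k : ℕ} {Ω : Type} [MeasurableSpace Ω] {P : Measure Ω} {a : ℕ → Ω → ℕ}

/-- the levels tend to infinity -/
lemma lev_tendsto {w : ℕ → ℕ} {β : ℝ} (hβ : 0 < β)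
    (hlog : Tendsto (fun n : ℕ => Real.log (w n) / Real.log n) atTop (𝓝 β)) : Tendsto w atTop atTop := by
  have hl : Tendsto (fun x : ℕ => Real.log x) atTop atTop := Real.tendsto_log_atTop.comp tendsto_natCast_atTop_atTop
  have h1 : Tendsto (fun n : ℕ => Real.log (w n)) atTop atTop := by
    refine (hlog.pos_mul_atTop hβ hl).congr' ?_
    filter_upwards [hl.eventually_gt_atTop 0] with n hn
    field_simp
  refine tendsto_atTop.2 fun b => ?_
  filter_upwards [h1.eventually_gt_atTop (Real.log b), h1.eventually_gt_atTop 0] with n hn hn2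
  by_contra h2
  have h3 : (w n : ℝ) ≤ b := by exact_mod_cast (not_le.1 h2).le
  have h4 : (0 : ℝ) < w n := by
    by_contra h5
    have : (w n : ℝ) = 0 := le_antisymm (not_lt.1 h5) (by positivity)
    rw [this, Real.log_zero] at hn2
    exact lt_irrefl _ hn2
  have := Real.log_le_log h4 h3
  linarith

lemma V_asym {z : ℕ → Fin k → ℕ} {β : Fin k → ℝ} (hβ : ∀ i, 0 < β i)
    (hlog : ∀ i, Tendsto (fun n : ℕ => Real.log (z n i) / Real.log n) atTop (𝓝 (β i))) :
    Tendsto (fun n : ℕ => (∏ i, Vp (z n i)) * Real.log n ^ k) atTop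
      (𝓝 (∏ i, (Real.exp (-Real.eulerMascheroniConstant) / β i))) := by
  have h1 : Tendsto (fun n : ℕ => ∏ i, (Vp (z n i) * Real.log (z n i) * (Real.log (z n i) / Real.log n)⁻¹)) atTop
      (𝓝 (∏ i, (Real.exp (-Real.eulerMascheroniConstant) / β i))) := by
    refine tendsto_finsetProd _ fun i _ => ?_
    rw [div_eq_mul_inv]
    exact (Vp_mertens.comp (lev_tendsto (hβ i) (hlog i))).mul ((hlog i).inv₀ (hβ i).ne')
  refine h1.congr' ?_
  have h2 : ∀ᶠ n : ℕ in atTop, ∀ i, 2 ≤ z n i :=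
    eventually_all.2 fun i => (lev_tendsto (hβ i) (hlog i)).eventually_ge_atTop 2
  filter_upwards [h2] with n hn
  have e : ∀ i, Vp (z n i) * Real.log (z n i) * (Real.log (z n i) / Real.log n)⁻¹ = Vp (z n i) * Real.log n := by
    intro i
    have h3 : (1 : ℝ) < z n i := by exact_mod_cast hn i
    have h4 : Real.log (z n i) ≠ 0 := (Real.log_pos h3).ne'
    rw [inv_div]
    field_simp
  simp only [e]
  rw [prod_mul_distrib, prod_const, card_univ, Fintype.card_fin]

lemma pr_eq_pj (M : ℕ) : pr M = pj 0 M := rfl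

lemma Vp_prod {z : Fin k → ℕ} {M : ℕ} (hM : ∀ i, z i ≤ M) :
    ∏ i, Vp (z i) = ∏ p ∈ pr M, (1 - 1 / (p : ℝ)) ^ #(ac z p) := by
  have h1 : ∀ p ∈ pr M, (1 - 1 / (p : ℝ)) ^ #(ac z p) = ∏ i, if p ≤ z i then (1 - 1 / (p : ℝ)) else 1 := by
    intro p _
    rw [← prod_filter, prod_const]
    rfl
  rw [prod_congr rfl h1, Finset.prod_comm]
  refine prod_congr rfl fun i _ => ?_
  rw [← prod_filter, Vp_eq]
  refine prod_congr ?_ fun _ _ => rfl
  ext p
  rw [mem_filter, mem_filter, mem_pr, mem_Icc]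
  constructor
  · rintro ⟨⟨h1, h2⟩, h3⟩
    exact ⟨⟨h2.trans (hM i), h3⟩, h2⟩
  · rintro ⟨⟨h1, h2⟩, h3⟩
    exact ⟨⟨h2.pos, h3⟩, h2⟩

omit [MeasurableSpace Ω] in
lemma Wn_anti (f : Fin k → ℤ[X]) {z : ℕ → Fin k → ℕ} (hz : Monotone z) (ω : Ω) : Antitone (fun n => Wn f (z n) a ω) := by
  classical
  intro n n' hn
  simp only
  rw [Wn_eq f (z := z n) (M := univ.sup (z n')) (fun i => (hz hn i).trans (le_sup (f := z n') (mem_univ i))),
    Wn_eq f (z := z n') (M := univ.sup (z n')) (fun i => le_sup (f := z n') (mem_univ i))]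
  refine prod_le_prod (fun p hp => ?_) fun p hp => ?_
  · have hp0 : (0 : ℝ) < p := by exact_mod_cast (pr_prime hp).pos
    have h1 : (rh f (z n') p (a p ω) : ℝ) / p ≤ 1 := by
      rw [div_le_one hp0]
      exact_mod_cast rh_le f (z n') p _
    linarith
  · have h1 : rh f (z n) p (a p ω) ≤ rh f (z n') p (a p ω) := by
      unfold rh
      refine card_le_card fun r hr => ?_
      rw [mem_filter] at hr ⊢
      obtain ⟨h1, i, h2, h3⟩ := hr
      exact ⟨h1, i, h2.trans (hz hn i), h3⟩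
    have h2 : (rh f (z n) p (a p ω) : ℝ) / p ≤ (rh f (z n') p (a p ω) : ℝ) / p :=
      div_le_div_of_nonneg_right (by exact_mod_cast h1) (by positivity)
    linarith

omit [MeasurableSpace Ω] in
lemma Wn_01 (f : Fin k → ℤ[X]) (z : Fin k → ℕ) (ω : Ω) : 0 ≤ Wn f z a ω ∧ Wn f z a ω ≤ 1 := by
  unfold Wn
  have h : ∀ p ∈ pr (univ.sup z), 0 ≤ 1 - (rh f z p (a p ω) : ℝ) / p ∧ 1 - (rh f z p (a p ω) : ℝ) / p ≤ 1 := by
    intro p hp
    have hp0 : (0 : ℝ) < p := by exact_mod_cast (pr_prime hp).pos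
    have h1 : (rh f z p (a p ω) : ℝ) / p ≤ 1 := by
      rw [div_le_one hp0]
      exact_mod_cast rh_le f z p _
    have h2 : 0 ≤ (rh f z p (a p ω) : ℝ) / p := by positivity
    constructor <;> linarith
  exact ⟨prod_nonneg fun p hp => (h p hp).1, prod_le_one (fun p hp => (h p hp).1) fun p hp => (h p hp).2⟩

/-- the densities -/
theorem W_ratio (h : Sys P a) {f : Fin k → ℤ[X]} (hf : ∀ i, 1 ≤ (f i).natDegree) (hinj : Function.Injective f)
    {z : ℕ → Fin k → ℕ} (hz : Monotone z) {β : Fin k → ℝ} (hβ : ∀ i, 0 < β i)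
    (hlog : ∀ i, Tendsto (fun n : ℕ => Real.log (z n i) / Real.log n) atTop (𝓝 (β i))) :
    ∀ᵐ ω ∂P, ∀ C : ℝ, Tendsto (fun n => tF f a 0 n ω) atTop (𝓝 C) →
      Tendsto (fun n => Wn f (z n) a ω / ∏ i, Vp (z n i)) atTop (𝓝 C) := by
  -- the sparse sequence
  obtain ⟨r, hr1, hr⟩ : ∃ r : ℕ, 1 ≤ r ∧ ∀ i, 34 / β i ≤ r := by
    choose r hr using fun i => exists_nat_ge (34 / β i)
    refine ⟨univ.sup r + 1, by omega, fun i => (hr i).trans ?_⟩
    have : r i ≤ univ.sup r + 1 := (le_sup (f := r) (mem_univ i)).trans (by omega)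
    exact_mod_cast this
  have hlvr : StrictMono (lv r) := lv_mono hr1
  have h16 := lv_mono (M := 16) (by norm_num)
  have h1 := tt_tail h hf hinj (z := fun j => z (lv r j)) (T := fun j => pj (lv 16 j) (univ.sup (z (lv r j))))
    (fun n p hp => ⟨(mem_pj.1 hp).2, (mem_pj.1 hp).1.1.le⟩)
  have hlow : ∀ᶠ j : ℕ in atTop, ∀ i, lv 16 j ≤ z (lv r j) i := by
    refine eventually_all.2 fun i => ?_
    have h2 := ((hlog i).comp hlvr.tendsto_atTop).eventually_const_le (show β i / 2 < β i by linarith [hβ i])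
    filter_upwards [h2, eventually_ge_atTop 1] with j hj hj1
    simp only [Function.comp] at hj
    have hj0 : (1 : ℝ) ≤ j := by exact_mod_cast hj1
    have hl : 0 < Real.log ((j : ℝ) + 1) := Real.log_pos (by linarith)
    have hr0 : (0 : ℝ) < r := by exact_mod_cast hr1
    rw [log_lv, le_div_iff₀ (by positivity)] at hj
    have h3 : 34 ≤ r * β i := by
      have := hr i
      rw [div_le_iff₀ (hβ i)] at this
      exact this
    have h4 : Real.log (lv 16 j : ℕ) ≤ Real.log (z (lv r j) i) := by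
      rw [log_lv]
      refine le_trans ?_ hj
      push_cast
      nlinarith
    have h5 : (0 : ℝ) < (lv 16 j : ℕ) := by exact_mod_cast lv_pos 16 j
    have h6 : (0 : ℝ) < (z (lv r j) i : ℕ) := by
      by_contra h7
      have h8 : ((z (lv r j) i : ℕ) : ℝ) = 0 := le_antisymm (not_lt.1 h7) (by positivity)
      rw [h8, Real.log_zero, log_lv] at h4
      have : 0 < ((16 : ℕ) : ℝ) * Real.log ((j : ℝ) + 1) := by positivity
      linarith
    exact_mod_cast (Real.log_le_log_iff h5 h6).1 h4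
  filter_upwards [h1] with ω hω C hC
  have hg0 : ∀ n, 0 < ∏ i, Vp (z n i) := fun n => prod_pos fun i _ => Vp_pos _
  refine interp_anti hlvr (f := fun n => Wn f (z n) a ω) (g := fun n => ∏ i, Vp (z n i)) (Wn_anti f hz ω)
    (fun n => (Wn_01 f (z n) ω).1)
    (fun n n' hn => prod_le_prod (fun i _ => (Vp_pos _).le) fun i _ => Vp_anti (hz hn i)) hg0 ?_ ?_
  · -- the ratio
    have h2 := (V_asym hβ hlog).comp hlvr.tendsto_atTop
    have h3 := h2.comp (tendsto_add_atTop_nat 1)
    have hLpos : 0 < ∏ i, (Real.exp (-Real.eulerMascheroniConstant) / β i) :=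
      prod_pos fun i _ => div_pos (Real.exp_pos _) (hβ i)
    have h4 := (h3.div h2 hLpos.ne').mul (log_ratio.pow k)
    rw [div_self hLpos.ne', one_pow, mul_one] at h4
    refine h4.congr' ?_
    filter_upwards [eventually_ge_atTop 1] with j hj
    have hj0 : (1 : ℝ) ≤ j := by exact_mod_cast hj
    have hr0 : (0 : ℝ) < r := by exact_mod_cast hr1
    have hl1 : 0 < Real.log ((j : ℝ) + 1) := Real.log_pos (by linarith)
    have hl2 : 0 < Real.log ((j : ℝ) + 2) := Real.log_pos (by linarith)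
    have e1 := log_lv r j
    have e2 := log_lv r (j + 1)
    have e3 : ((j + 1 : ℕ) : ℝ) + 1 = (j : ℝ) + 2 := by push_cast; ring
    rw [e3] at e2
    have hV := hg0 (lv r j)
    simp only [Function.comp, Pi.div_apply, e1, e2]
    rw [mul_pow, mul_pow, div_pow]
    field_simp
  · have h2 : Tendsto (fun j : ℕ => tF f a 0 (lv 16 j) ω * tt f (z (lv r j)) a (pj (lv 16 j) (univ.sup (z (lv r j)))) ω)
        atTop (𝓝 C) := by
      have h3 : Tendsto (fun j : ℕ => tt f (z (lv r j)) a (pj (lv 16 j) (univ.sup (z (lv r j)))) ω) atTop (𝓝 1) := by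
        rw [tendsto_iff_dist_tendsto_zero]
        have h6 : Tendsto (fun n : ℕ => 1 / ((n : ℝ) + 1) ^ 2) atTop (𝓝 0) := by
          have h7 : Tendsto (fun n : ℕ => ((n : ℝ) + 1) ^ 2) atTop atTop :=
            (tendsto_pow_atTop (by norm_num)).comp (tendsto_atTop_add_const_right _ _ tendsto_natCast_atTop_atTop)
          exact (tendsto_const_nhds (x := (1 : ℝ))).div_atTop h7
        refine squeeze_zero' (Eventually.of_forall fun n => dist_nonneg) ?_ h6
        filter_upwards [hω] with n hn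
        rw [Real.dist_eq]
        exact hn.le
      have h4 := (hC.comp h16.tendsto_atTop).mul h3
      rwa [mul_one] at h4
    refine h2.congr' ?_
    have hk : ∀ᶠ j : ℕ in atTop, lv 16 j ≤ univ.sup (z (lv r j)) ∨ k = 0 := by
      rcases Nat.eq_zero_or_pos k with h0 | h0
      · exact Eventually.of_forall fun _ => Or.inr h0
      · filter_upwards [hlow] with j hj
        exact Or.inl ((hj ⟨0, h0⟩).trans (le_sup (f := z (lv r j)) (mem_univ _)))
    filter_upwards [hlow, hk] with j hj hjk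
    rcases hjk with hjk | hjk
    · have hM : ∀ i, z (lv r j) i ≤ univ.sup (z (lv r j)) := fun i => le_sup (f := z (lv r j)) (mem_univ i)
      rw [Wn_eq f hM, Vp_prod hM, pr_eq_pj, (pj_split (Nat.zero_le _) hjk).1,
        prod_union (pj_split (Nat.zero_le _) hjk).2, prod_union (pj_split (Nat.zero_le _) hjk).2, mul_div_mul_comm,
        ← prod_div_distrib, ← prod_div_distrib]
      rw [tF_eq f 0 (lv 16 j) hj]
      rfl
    · subst hjk
      have h5 : univ.sup (z (lv r j)) = 0 := by simp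
      rw [h5, pj_empty (Nat.zero_le _)]
      unfold tF Wn tt wF
      have h6 : pr (univ.sup (z (lv r j))) = ∅ := by
        rw [h5]
        rfl
      rw [h6]
      have h7 : ∀ p b, rF f p b = 0 := by
        intro p b
        unfold rF
        rw [card_eq_zero, filter_eq_empty_iff]
        rintro r _ ⟨i, _⟩
        exact i.elim0
      simp [h7]

/-- the law with moving levels -/
theorem law_moving (h : Sys P a) {f : Fin k → ℤ[X]} (hf : ∀ i, 1 ≤ (f i).natDegree) (hinj : Function.Injective f)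
    {z : ℕ → Fin k → ℕ} (hz : Monotone z) (hzK : ∀ n i, Kc f ≤ z n i) {β : Fin k → ℝ} (hβ : ∀ i, 0 < β i)
    (hlog : ∀ i, Tendsto (fun n : ℕ => Real.log (z n i) / Real.log n) atTop (𝓝 (β i))) :
    ∀ᵐ ω ∂P, (∀ ε : ℝ, 0 < ε → ∀ᶠ x : ℕ in atTop,
        |∑ n ∈ Ioc 0 x, (Fn f (z n) a n ω - Wn f (z n) a ω)| ≤ (x : ℝ) ^ (1 / 2 + ε)) ∧
      ∀ C : ℝ, Tendsto (fun n => tF f a 0 n ω) atTop (𝓝 C) →
      Tendsto (fun x : ℕ => (∑ n ∈ Ioc 0 x, Fn f (z n) a n ω) * Real.log x ^ k / x) atTop
        (𝓝 (C * ∏ i, (Real.exp (-Real.eulerMascheroniConstant) / β i))) := by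
  have hzA : ∃ A K0 : ℕ, ∀ K : ℕ, K0 ≤ K → ∀ n ≤ 2 ^ K, ∀ i, z n i ≤ (2 ^ K) ^ A := by
    choose A hA using fun i => exists_nat_gt (β i)
    obtain ⟨B, hB⟩ : ∃ B, B = univ.sup A := ⟨_, rfl⟩
    have hAB : ∀ i, β i < B := fun i => (hA i).trans_le (by
      rw [hB]
      exact_mod_cast le_sup (f := A) (mem_univ i))
    have h2 : ∀ᶠ n : ℕ in atTop, ∀ i, Real.log (z n i) / Real.log n ≤ B :=
      eventually_all.2 fun i => (hlog i).eventually_le_const (hAB i)
    obtain ⟨n0, hn0⟩ := eventually_atTop.1 h2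
    refine ⟨B, n0 + 1, fun K hK n hn i => (hz hn i).trans ?_⟩
    have h2K : K < 2 ^ K := Nat.lt_two_pow_self
    have h3 := hn0 (2 ^ K) (by omega) i
    have h4 : 0 < Real.log ((2 ^ K : ℕ) : ℝ) := by
      refine Real.log_pos ?_
      have : 1 < 2 ^ K := by omega
      exact_mod_cast this
    rw [div_le_iff₀ h4, ← Real.log_pow] at h3
    rcases Nat.eq_zero_or_pos (z (2 ^ K) i) with h5 | h5
    · rw [h5]
      exact Nat.zero_le _
    · have h6 : (0 : ℝ) < (z (2 ^ K) i : ℕ) := by exact_mod_cast h5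
      have h7 := (Real.log_le_log_iff h6 (by positivity)).1 h3
      exact_mod_cast h7
  have h1 : ∀ᵐ ω ∂P, ∀ q : ℕ, ∀ᶠ x : ℕ in atTop,
      |∑ n ∈ Ioc 0 x, (Fn f (z n) a n ω - Wn f (z n) a ω)| ≤ (x : ℝ) ^ (1 / 2 + 1 / ((q : ℝ) + 1)) := by
    rw [ae_all_iff]
    intro q
    exact sqrt_moving h hf hinj hz hzK hzA (by positivity)
  filter_upwards [h1, W_ratio h hf hinj hz hβ hlog] with ω hω1 hω2
  have hA : ∀ ε : ℝ, 0 < ε → ∀ᶠ x : ℕ in atTop,
        |∑ n ∈ Ioc 0 x, (Fn f (z n) a n ω - Wn f (z n) a ω)| ≤ (x : ℝ) ^ (1 / 2 + ε) := by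
    intro ε hε
    obtain ⟨q, hq⟩ := exists_nat_one_div_lt hε
    filter_upwards [hω1 q, eventually_ge_atTop 1] with x hx hx1
    refine hx.trans ?_
    have : (1 : ℝ) ≤ x := by exact_mod_cast hx1
    exact Real.rpow_le_rpow_of_exponent_le this (by linarith)
  refine ⟨hA, fun C hC => ?_⟩
  have h2 := (hω2 C hC).mul (V_asym hβ hlog)
  have h3 : Tendsto (fun n : ℕ => Wn f (z n) a ω * Real.log n ^ k) atTop
      (𝓝 (C * ∏ i, (Real.exp (-Real.eulerMascheroniConstant) / β i))) := by
    refine h2.congr fun n => ?_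
    have : 0 < ∏ i, Vp (z n i) := prod_pos fun i _ => Vp_pos _
    field_simp
  have h4 := cesaro (Wn_anti f hz ω) (fun n => (Wn_01 f (z n) ω).1) (fun n => (Wn_01 f (z n) ω).2) h3
  have h5 : Tendsto (fun x : ℕ => (∑ n ∈ Ioc 0 x, (Fn f (z n) a n ω - Wn f (z n) a ω)) * Real.log x ^ k / x) atTop (𝓝 0) := by
    have h6 : Tendsto (fun x : ℝ => x ^ (-(1 / 4) : ℝ) * Real.log x ^ k) atTop (𝓝 0) := by
      have h11 : (fun x : ℝ => Real.log x ^ k) =o[Filter.atTop] fun x => x ^ ((1 : ℝ) / 4) := by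
        have := isLittleO_log_rpow_rpow_atTop ((k : ℕ) : ℝ) (show (0 : ℝ) < 1 / 4 by norm_num)
        simpa only [Real.rpow_natCast] using this
      refine h11.tendsto_div_nhds_zero.congr' ?_
      filter_upwards [eventually_gt_atTop 0] with x hx
      rw [Real.rpow_neg hx.le]
      field_simp
    rw [tendsto_zero_iff_abs_tendsto_zero]
    refine squeeze_zero' (Eventually.of_forall fun n => abs_nonneg _) ?_ (h6.comp tendsto_natCast_atTop_atTop)
    filter_upwards [hA (1 / 4) (by norm_num), eventually_ge_atTop 1] with x hx hx1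
    have hx0 : (0 : ℝ) < x := by exact_mod_cast hx1
    have hl : 0 ≤ Real.log (x : ℕ) := Real.log_natCast_nonneg _
    simp only [Function.comp]
    rw [abs_div, abs_mul, abs_of_pos hx0, abs_of_nonneg (pow_nonneg hl k), div_le_iff₀ hx0]
    have e1 : (x : ℝ) ^ (-(1 / 4) : ℝ) * Real.log x ^ k * x = (x : ℝ) ^ (1 / 2 + 1 / 4 : ℝ) * Real.log x ^ k := by
      have e2 : (x : ℝ) ^ (1 / 2 + 1 / 4 : ℝ) = (x : ℝ) ^ (-(1 / 4) : ℝ) * x := by
        nth_rw 3 [← Real.rpow_one (x : ℝ)]
        rw [← Real.rpow_add hx0]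
        norm_num
      rw [e2]
      ring
    rw [e1]
    exact mul_le_mul_of_nonneg_right hx (pow_nonneg hl k)
  have h6 := h5.add h4
  rw [zero_add] at h6
  refine h6.congr fun x => ?_
  rw [sum_sub_distrib]
  ring

end Pool.Agent.L5helper2.BH
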