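import Pool.Agent.L5helper2.BH.A8

/-! Project BH (helper2): the natural levels; the law for all systems. -/

set_option autoImplicit false

namespace Pool.Agent.L5helper2.BH

open Finset Polynomial MeasureTheory ProbabilityTheory Filter Topology
open Pool.Agent.L5helper2.RS (poly_size)

/-- the values of a polynomial grow in size -/
lemma abs_grow (g : ℤ[X]) (hg : 1 ≤ g.natDegree) : ∃ m0 : ℕ, ∀ n : ℕ, m0 ≤ n →
    |((g.eval (n : ℤ) : ℤ) : ℝ)| ≤ |((g.eval ((n + 1 : ℕ) : ℤ) : ℤ) : ℝ)| := by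
  obtain ⟨Q, hQ⟩ : ∃ Q : ℝ[X], Q = g.map (Int.castRingHom ℝ) := ⟨_, rfl⟩
  have hd : Q.natDegree = g.natDegree := by
    rw [hQ]
    exact natDegree_map_eq_of_injective (RingHom.injective_int _) g
  have hg0 : g ≠ 0 := by
    rintro rfl
    simp at hg
  have hQ0 : Q ≠ 0 := by
    rw [hQ]
    exact (Polynomial.map_ne_zero_iff (RingHom.injective_int _)).2 hg0
  have hlc : Q.leadingCoeff ≠ 0 := leadingCoeff_ne_zero.2 hQ0
  have hev : ∀ m : ℕ, Q.eval (m : ℝ) = ((g.eval (m : ℤ) : ℤ) : ℝ) := by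
    intro m
    have h1 : ((m : ℤ) : ℝ) = (m : ℝ) := by push_cast; rfl
    rw [hQ, ← h1, eval_intCast_map]
    simp
  obtain ⟨G, hG⟩ : ∃ G : ℝ[X], G = Q * Q := ⟨_, rfl⟩
  have hGd : G.natDegree = 2 * g.natDegree := by
    rw [hG, natDegree_mul hQ0 hQ0, hd]
    ring
  have hGl : G.leadingCoeff = Q.leadingCoeff ^ 2 := by
    rw [hG, leadingCoeff_mul, sq]
  have hGd' : G.derivative.natDegree = G.natDegree - 1 := by
    refine le_antisymm (natDegree_derivative_le G) (le_natDegree_of_ne_zero ?_)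
    rw [coeff_derivative]
    have e : G.natDegree - 1 + 1 = G.natDegree := by omega
    rw [e]
    have e2 : G.coeff G.natDegree = Q.leadingCoeff ^ 2 := hGl
    rw [e2]
    have : (0 : ℝ) < ((G.natDegree - 1 : ℕ) : ℝ) + 1 := by positivity
    exact mul_ne_zero (pow_ne_zero 2 hlc) this.ne'
  have hGc : G.derivative.leadingCoeff = Q.leadingCoeff ^ 2 * (2 * g.natDegree) := by
    unfold leadingCoeff
    rw [hGd', coeff_derivative]
    have e : G.natDegree - 1 + 1 = G.natDegree := by omega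
    rw [e]
    have e2 : G.coeff G.natDegree = Q.leadingCoeff ^ 2 := hGl
    have e3 : ((G.natDegree - 1 : ℕ) : ℝ) + 1 = 2 * g.natDegree := by
      rw [hGd, Nat.cast_sub (by omega)]
      push_cast
      ring
    rw [e2, e3]
    rfl
  have hdeg : 0 < G.derivative.degree := by
    refine natDegree_pos_iff_degree_pos.1 ?_
    rw [hGd', hGd]
    omega
  have ht : Tendsto (fun x : ℝ => G.derivative.eval x) atTop atTop := by
    refine tendsto_atTop_of_leadingCoeff_nonneg _ hdeg ?_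
    rw [hGc]
    positivity
  obtain ⟨x0, hx0⟩ := eventually_atTop.1 (ht.eventually_ge_atTop 0)
  have hmono : MonotoneOn (fun x : ℝ => G.eval x) (Set.Ici x0) := by
    refine monotoneOn_of_deriv_nonneg (convex_Ici x0) G.continuous.continuousOn G.differentiable.differentiableOn ?_
    intro x hx
    rw [interior_Ici, Set.mem_Ioi] at hx
    rw [Polynomial.deriv]
    exact hx0 x hx.le
  obtain ⟨m0, hm0⟩ := exists_nat_ge x0
  refine ⟨m0, fun n hn => ?_⟩
  have h1 : (m0 : ℝ) ≤ n := by exact_mod_cast hn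
  have h2 : (n : ℝ) ≤ ((n + 1 : ℕ) : ℝ) := by push_cast; linarith
  have h3 := hmono (show x0 ≤ (n : ℝ) by linarith) (show x0 ≤ ((n + 1 : ℕ) : ℝ) by linarith) h2
  simp only [hG, eval_mul] at h3
  rw [hev, hev] at h3
  exact abs_le_iff_mul_self_le.2 h3

/-- the size of the levels -/
lemma lev_log (g : ℤ[X]) (hg : 1 ≤ g.natDegree) {θ : ℝ} (hθ : 0 < θ) :
    Tendsto (fun n : ℕ => Real.log (⌊|((g.eval (n : ℤ) : ℤ) : ℝ)| ^ θ⌋₊ : ℕ) / Real.log n) atTop
      (𝓝 (θ * g.natDegree)) := by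
  obtain ⟨q, hq, hsz⟩ := poly_size g hg
  have hl : Tendsto (fun x : ℕ => Real.log x) atTop atTop := Real.tendsto_log_atTop.comp tendsto_natCast_atTop_atTop
  have hq0 : (1 : ℝ) ≤ q := by exact_mod_cast hq
  have hlq : 0 ≤ Real.log q := Real.log_nonneg hq0
  have hd0 : (1 : ℝ) ≤ g.natDegree := by exact_mod_cast hg
  have hL : Tendsto (fun n : ℕ => θ * g.natDegree - (θ * (2 * Real.log q) + Real.log 2) / Real.log n) atTop
      (𝓝 (θ * g.natDegree)) := by
    have h1 := (tendsto_const_nhds (x := θ * (2 * Real.log q) + Real.log 2)).div_atTop hl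
    have h2 := h1.const_sub (θ * g.natDegree)
    rwa [sub_zero] at h2
  have hU : Tendsto (fun n : ℕ => θ * g.natDegree + (θ * (2 * Real.log q)) / Real.log n) atTop
      (𝓝 (θ * g.natDegree)) := by
    have h1 := (tendsto_const_nhds (x := θ * (2 * Real.log q))).div_atTop hl
    have h2 := h1.const_add (θ * g.natDegree)
    rwa [add_zero] at h2
  have hbig : ∀ᶠ n : ℕ in atTop, (q : ℝ) ^ 2 ≤ n := tendsto_natCast_atTop_atTop.eventually_ge_atTop _
  refine tendsto_of_tendsto_of_tendsto_of_le_of_le' hL hU ?_ ?_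
  · filter_upwards [hsz, hl.eventually_gt_atTop 0, hbig, eventually_gt_atTop 0] with n h1 h2 h3 h4
    have hn0 : (0 : ℝ) < n := by exact_mod_cast h4
    obtain ⟨v, hv⟩ : ∃ v : ℝ, v = |((g.eval (n : ℤ) : ℤ) : ℝ)| := ⟨_, rfl⟩
    rw [← hv] at h1 ⊢
    have hn1 : (1 : ℝ) ≤ n := by exact_mod_cast h4
    have hpow : (n : ℝ) ≤ (n : ℝ) ^ g.natDegree := le_self_pow₀ hn1 (by omega)
    have hv1 : 1 ≤ v := by
      by_contra hc
      have : (q : ℝ) ^ 2 * v < (q : ℝ) ^ 2 * 1 := mul_lt_mul_of_pos_left (not_le.1 hc) (by positivity)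
      linarith [h1.1]
    have hvθ : 1 ≤ v ^ θ := Real.one_le_rpow hv1 hθ.le
    have hfl : v ^ θ / 2 ≤ ⌊v ^ θ⌋₊ := by
      have h5 := Nat.lt_floor_add_one (v ^ θ)
      have h6 : (1 : ℝ) ≤ ⌊v ^ θ⌋₊ := by exact_mod_cast Nat.le_floor (by exact_mod_cast hvθ : ((1 : ℕ) : ℝ) ≤ v ^ θ)
      linarith
    have h5 : Real.log (v ^ θ / 2) ≤ Real.log (⌊v ^ θ⌋₊ : ℕ) := Real.log_le_log (by positivity) hfl
    rw [Real.log_div (by positivity) (by norm_num), Real.log_rpow (by linarith)] at h5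
    have h6 : g.natDegree * Real.log n ≤ 2 * Real.log q + Real.log v := by
      have := Real.log_le_log (by positivity) h1.1
      rw [Real.log_pow, Real.log_mul (by positivity) (by positivity), Real.log_pow] at this
      push_cast at this
      exact this
    rw [le_div_iff₀ h2]
    have e : (θ * g.natDegree - (θ * (2 * Real.log q) + Real.log 2) / Real.log n) * Real.log n =
        θ * (g.natDegree * Real.log n) - θ * (2 * Real.log q) - Real.log 2 := by
      field_simp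
      ring
    rw [e]
    have h7 := mul_le_mul_of_nonneg_left h6 hθ.le
    linarith
  · filter_upwards [hsz, hl.eventually_gt_atTop 0, hbig, eventually_gt_atTop 0] with n h1 h2 h3 h4
    have hn0 : (0 : ℝ) < n := by exact_mod_cast h4
    obtain ⟨v, hv⟩ : ∃ v : ℝ, v = |((g.eval (n : ℤ) : ℤ) : ℝ)| := ⟨_, rfl⟩
    rw [← hv] at h1 ⊢
    have hn1 : (1 : ℝ) ≤ n := by exact_mod_cast h4
    have hpow : (n : ℝ) ≤ (n : ℝ) ^ g.natDegree := le_self_pow₀ hn1 (by omega)
    have hv1 : 1 ≤ v := by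
      by_contra hc
      have : (q : ℝ) ^ 2 * v < (q : ℝ) ^ 2 * 1 := mul_lt_mul_of_pos_left (not_le.1 hc) (by positivity)
      linarith [h1.1]
    have hvθ : 1 ≤ v ^ θ := Real.one_le_rpow hv1 hθ.le
    have h6 : (1 : ℝ) ≤ ⌊v ^ θ⌋₊ := by exact_mod_cast Nat.le_floor (by exact_mod_cast hvθ : ((1 : ℕ) : ℝ) ≤ v ^ θ)
    have h5 : Real.log (⌊v ^ θ⌋₊ : ℕ) ≤ Real.log (v ^ θ) := Real.log_le_log (by linarith) (Nat.floor_le (by linarith))
    rw [Real.log_rpow (by linarith)] at h5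
    have h7 : Real.log v ≤ 2 * Real.log q + g.natDegree * Real.log n := by
      have := Real.log_le_log (by linarith) h1.2
      rw [Real.log_mul (by positivity) (by positivity), Real.log_pow, Real.log_pow] at this
      push_cast at this
      exact this
    rw [div_le_iff₀ h2]
    have e : (θ * g.natDegree + θ * (2 * Real.log q) / Real.log n) * Real.log n =
        θ * (2 * Real.log q + g.natDegree * Real.log n) := by
      field_simp
      ring
    rw [e]
    have h8 := mul_le_mul_of_nonneg_left h7 hθ.le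
    linarith

variable {k : ℕ} {Ω : Type} [MeasurableSpace Ω] {P : Measure Ω} {a : ℕ → Ω → ℕ}

/-- the natural levels -/
noncomputable def lev (θ : ℝ) (f : Fin k → ℤ[X]) (n : ℕ) (i : Fin k) : ℕ :=
  ⌊|(((f i).eval (n : ℤ) : ℤ) : ℝ)| ^ θ⌋₊

omit [MeasurableSpace Ω] in
lemma Fn_01 (f : Fin k → ℤ[X]) (z : Fin k → ℕ) (n : ℕ) (ω : Ω) : 0 ≤ Fn f z a n ω ∧ Fn f z a n ω ≤ 1 := by
  unfold Fn
  exact ⟨prod_nonneg fun p _ => (sv_01 _ _ _ _ _).1,
    prod_le_one (fun p _ => (sv_01 _ _ _ _ _).1) fun p _ => (sv_01 _ _ _ _ _).2⟩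

/-- the law for one system -/
theorem nat_one (h : Sys P a) {f : Fin k → ℤ[X]} (hf : ∀ i, 1 ≤ (f i).natDegree) (hinj : Function.Injective f)
    {θ : ℝ} (hθ : 0 < θ) :
    ∀ᵐ ω ∂P, (∀ ε : ℝ, 0 < ε → ∀ᶠ x : ℕ in atTop,
        |∑ n ∈ Ioc 0 x, Fn f (lev θ f n) a n ω - ∑ n ∈ Ioc 0 x, Wn f (lev θ f n) a ω| ≤ (x : ℝ) ^ (1 / 2 + ε)) ∧
      ∀ C : ℝ, Tendsto (fun n => tF f a 0 n ω) atTop (𝓝 C) →
      Tendsto (fun x : ℕ => (∑ n ∈ Ioc 0 x, Fn f (lev θ f n) a n ω) * Real.log x ^ k / x) atTop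
        (𝓝 (C * ∏ i, (Real.exp (-Real.eulerMascheroniConstant) / (θ * (f i).natDegree)))) := by
  choose m1 hm1 using fun i => abs_grow (f i) (hf i)
  have hβ : ∀ i, 0 < θ * ((f i).natDegree : ℝ) := fun i => mul_pos hθ (by exact_mod_cast hf i)
  have hK : ∀ᶠ n : ℕ in atTop, ∀ i, Kc f ≤ lev θ f n i :=
    eventually_all.2 fun i => (lev_tendsto (hβ i) (lev_log (f i) (hf i) hθ)).eventually_ge_atTop _
  obtain ⟨m2, hm2⟩ := eventually_atTop.1 hK
  obtain ⟨m0, hm0⟩ : ∃ m0 : ℕ, m0 = max m2 (univ.sup m1) := ⟨_, rfl⟩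
  have hm02 : m2 ≤ m0 := by rw [hm0]; exact le_max_left _ _
  have hm01 : ∀ i, m1 i ≤ m0 := fun i => by
    rw [hm0]
    exact (le_sup (f := m1) (mem_univ i)).trans (le_max_right _ _)
  obtain ⟨z, hz⟩ : ∃ z : ℕ → Fin k → ℕ, z = fun n i => lev θ f (max n m0) i := ⟨_, rfl⟩
  have hstep : ∀ n, m0 ≤ n → ∀ i, lev θ f n i ≤ lev θ f (n + 1) i := by
    intro n hn i
    unfold lev
    exact Nat.floor_mono (Real.rpow_le_rpow (abs_nonneg _) (hm1 i n ((hm01 i).trans hn)) hθ.le)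
  have hzm : Monotone z := by
    refine monotone_nat_of_le_succ fun n i => ?_
    rw [hz]
    simp only
    rcases lt_or_ge n m0 with h1 | h1
    · rw [max_eq_right h1.le, max_eq_right (by omega)]
    · rw [max_eq_left h1, max_eq_left (by omega)]
      exact hstep n h1 i
  have hzK : ∀ n i, Kc f ≤ z n i := fun n i => by
    rw [hz]
    exact hm2 _ (hm02.trans (le_max_right _ _)) i
  have hzl : ∀ i, Tendsto (fun n : ℕ => Real.log (z n i) / Real.log n) atTop (𝓝 (θ * (f i).natDegree)) := by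
    intro i
    refine (lev_log (f i) (hf i) hθ).congr' ?_
    filter_upwards [eventually_ge_atTop m0] with n hn
    rw [hz]
    simp only
    rw [max_eq_left hn]
    rfl
  have hzz : ∀ n, m0 ≤ n → z n = lev θ f n := by
    intro n hn
    rw [hz]
    funext i
    simp only
    rw [max_eq_left hn]
  filter_upwards [law_moving h hf hinj hzm hzK hβ hzl] with ω hω
  have hdiff : ∀ (u v : ℕ → ℝ), (∀ n, m0 ≤ n → u n = v n) → (∀ n, 0 ≤ u n ∧ u n ≤ 1) → (∀ n, 0 ≤ v n ∧ v n ≤ 1) →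
      ∀ x : ℕ, |∑ n ∈ Ioc 0 x, u n - ∑ n ∈ Ioc 0 x, v n| ≤ m0 := by
    intro u v huv hu hv x
    rw [← sum_sub_distrib]
    refine (abs_sum_le_sum_abs _ _).trans ?_
    have h1 : ∀ n ∈ Ioc 0 x, |u n - v n| ≤ if n < m0 then 1 else 0 := by
      intro n _
      split_ifs with h2
      · rw [abs_le]
        have := hu n
        have := hv n
        constructor <;> linarith
      · rw [huv n (not_lt.1 h2), sub_self, abs_zero]
    refine (sum_le_sum h1).trans ?_
    rw [← sum_filter, sum_const, nsmul_eq_mul, mul_one]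
    have h2 : #((Ioc 0 x).filter (fun n => n < m0)) ≤ #(range m0) := by
      refine card_le_card fun n hn => ?_
      rw [mem_filter] at hn
      exact mem_range.2 hn.2
    rw [card_range] at h2
    exact_mod_cast h2
  have hF := hdiff (fun n => Fn f (lev θ f n) a n ω) (fun n => Fn f (z n) a n ω)
    (fun n hn => by simp only [hzz n hn]) (fun n => Fn_01 _ _ _ _) (fun n => Fn_01 _ _ _ _)
  have hW := hdiff (fun n => Wn f (lev θ f n) a ω) (fun n => Wn f (z n) a ω)
    (fun n hn => by simp only [hzz n hn]) (fun n => Wn_01 _ _ _) (fun n => Wn_01 _ _ _)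
  refine ⟨fun ε hε => ?_, fun C hC => ?_⟩
  · have h1 : Tendsto (fun x : ℕ => (x : ℝ) ^ (ε / 2)) atTop atTop :=
      (tendsto_rpow_atTop (show 0 < ε / 2 by positivity)).comp tendsto_natCast_atTop_atTop
    filter_upwards [hω.1 (ε / 2) (by positivity), h1.eventually_ge_atTop (2 * m0 + 1), eventually_ge_atTop 1]
      with x hx1 hx2 hx3
    have hx0 : (1 : ℝ) ≤ x := by exact_mod_cast hx3
    have h2 := hF x
    have h3 := hW x
    rw [sum_sub_distrib] at hx1
    have h4 : |∑ n ∈ Ioc 0 x, Fn f (lev θ f n) a n ω - ∑ n ∈ Ioc 0 x, Wn f (lev θ f n) a ω| ≤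
        (x : ℝ) ^ (1 / 2 + ε / 2) + 2 * m0 := by
      rw [abs_le] at h2 h3 hx1 ⊢
      constructor <;> linarith [h2.1, h2.2, h3.1, h3.2, hx1.1, hx1.2]
    have h5 : (1 : ℝ) ≤ (x : ℝ) ^ (1 / 2 + ε / 2) := Real.one_le_rpow hx0 (by positivity)
    have h6 : (x : ℝ) ^ (1 / 2 + ε) = (x : ℝ) ^ (1 / 2 + ε / 2) * (x : ℝ) ^ (ε / 2) := by
      rw [← Real.rpow_add (by linarith)]
      congr 1
      ring
    rw [h6]
    have hm : (0 : ℝ) ≤ m0 := by positivity
    have h7 := mul_le_mul_of_nonneg_left hx2 (by linarith : (0 : ℝ) ≤ (x : ℝ) ^ (1 / 2 + ε / 2))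
    nlinarith
  · have h1 := hω.2 C hC
    have h2 : Tendsto (fun x : ℕ => (∑ n ∈ Ioc 0 x, Fn f (lev θ f n) a n ω - ∑ n ∈ Ioc 0 x, Fn f (z n) a n ω) *
        Real.log x ^ k / x) atTop (𝓝 0) := by
      have h3 := (RS.log_pow_div (k := k)).const_mul (m0 : ℝ)
      rw [mul_zero] at h3
      rw [tendsto_zero_iff_abs_tendsto_zero]
      refine squeeze_zero (fun n => abs_nonneg _) (fun x => ?_) h3
      simp only [Function.comp]
      rw [mul_div_assoc, abs_mul, abs_of_nonneg (a := Real.log x ^ k / (x : ℝ))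
        (div_nonneg (pow_nonneg (Real.log_natCast_nonneg x) k) (by positivity))]
      exact mul_le_mul_of_nonneg_right (hF x) (div_nonneg (pow_nonneg (Real.log_natCast_nonneg x) k) (by positivity))
    have h3 := h2.add h1
    rw [zero_add] at h3
    refine h3.congr fun x => ?_
    ring

/-- the law for all systems -/
theorem nat_all (h : Sys P a) {θ : ℝ} (hθ : 0 < θ) :
    ∀ᵐ ω ∂P, ∀ f : Fin k → ℤ[X], (∀ i, 1 ≤ (f i).natDegree) → Function.Injective f →
      (∀ ε : ℝ, 0 < ε → ∃ x0 : ℕ, ∀ x : ℕ, x0 ≤ x →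
        |∑ n ∈ Ioc 0 x, Fn f (lev θ f n) a n ω - ∑ n ∈ Ioc 0 x, Wn f (lev θ f n) a ω| ≤ (x : ℝ) ^ (1 / 2 + ε)) ∧
      ∃ C : ℝ, 0 ≤ C ∧
        (0 < C ↔ ∀ p : ℕ, p.Prime → ∃ r : ℕ, ∀ i, ¬ (p : ℤ) ∣ (f i).eval (r : ℤ) - a p ω) ∧
        Tendsto (fun n => tF f a 0 n ω) atTop (𝓝 C) ∧
        Tendsto (fun x : ℕ => (∑ n ∈ Ioc 0 x, Fn f (lev θ f n) a n ω) * Real.log x ^ k / x) atTop
          (𝓝 (C * ∏ i, (Real.exp (-Real.eulerMascheroniConstant) / (θ * (f i).natDegree)))) := by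
  classical
  have hcount : Countable ℤ[X] := Cardinal.mk_le_aleph0_iff.1 (Polynomial.cardinalMk_le_max.trans (by simp))
  rw [ae_all_iff]
  intro f
  by_cases hf : ∀ i, 1 ≤ (f i).natDegree
  swap
  · exact Eventually.of_forall fun ω h => absurd h hf
  by_cases hinj : Function.Injective f
  swap
  · exact Eventually.of_forall fun ω _ h => absurd h hinj
  filter_upwards [sing_one h hf hinj, nat_one h hf hinj hθ] with ω h1 h2 _ _
  obtain ⟨m, T, hT, hlim⟩ := h1
  have hC : Tendsto (fun n => tF f a 0 n ω) atTop (𝓝 (tF f a 0 m ω * T)) := by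
    refine (hlim.const_mul _).congr' ?_
    filter_upwards [eventually_ge_atTop m] with n hn
    exact (tF_split f (Nat.zero_le m) hn ω).symm
  refine ⟨fun ε hε => eventually_atTop.1 (h2.1 ε hε), tF f a 0 m ω * T, ?_, ?_, hC, h2.2 _ hC⟩
  · exact mul_nonneg (div_nonneg (wF_nonneg f 0 m ω) (pow_nonneg (vF_pos 0 m).le k)) hT.le
  · have hbad : ∀ p : ℕ, p.Prime → (¬ ∃ r : ℕ, ∀ i, ¬ (p : ℤ) ∣ (f i).eval (r : ℤ) - a p ω) → rF f p (a p ω) = p := by
      intro p _ hp
      push Not at hp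
      unfold rF
      rw [filter_true_of_mem fun r _ => hp r, card_range]
    have hgood : ∀ p : ℕ, p.Prime → (∃ r : ℕ, ∀ i, ¬ (p : ℤ) ∣ (f i).eval (r : ℤ) - a p ω) → rF f p (a p ω) < p := by
      rintro p hpp ⟨r, hr⟩
      refine lt_of_le_of_ne (rF_le f p _) fun h3 => ?_
      have h4 : (range p).filter (fun r : ℕ => ∃ i, (p : ℤ) ∣ (f i).eval (r : ℤ) - a p ω) = range p := by
        refine eq_of_subset_of_card_le (filter_subset _ _) ?_
        rw [card_range]
        unfold rF at h3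
        exact h3.ge
      have h5 : r % p ∈ range p := mem_range.2 (Nat.mod_lt _ hpp.pos)
      rw [← h4, mem_filter] at h5
      obtain ⟨i, hi2⟩ := h5.2
      refine hr i ?_
      have h6 := Polynomial.sub_dvd_eval_sub (r : ℤ) ((r % p : ℕ) : ℤ) (f i)
      have h7 : (p : ℤ) ∣ (r : ℤ) - ((r % p : ℕ) : ℤ) := by
        rw [Int.natCast_mod]
        exact Int.dvd_self_sub_emod
      have e : (f i).eval (r : ℤ) - (a p ω : ℤ) = ((f i).eval (r : ℤ) - (f i).eval ((r % p : ℕ) : ℤ)) +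
          ((f i).eval ((r % p : ℕ) : ℤ) - (a p ω : ℤ)) := by ring
      rw [e]
      exact dvd_add (h7.trans h6) hi2
    constructor
    · intro h3 p hpp
      by_contra h4
      have h5 := hbad p hpp h4
      have h6 : Tendsto (fun n => tF f a 0 n ω) atTop (𝓝 0) := by
        refine tendsto_const_nhds.congr' ?_
        filter_upwards [eventually_ge_atTop p] with n hn
        have h7 : wF f a 0 n ω = 0 := by
          unfold wF
          refine prod_eq_zero (i := p) (mem_pj.2 ⟨⟨hpp.pos, hn⟩, hpp⟩) ?_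
          rw [h5]
          have : (p : ℝ) ≠ 0 := by exact_mod_cast hpp.ne_zero
          rw [div_self this, sub_self]
        unfold tF
        rw [h7, zero_div]
      have h7 := tendsto_nhds_unique h6 hC
      linarith
    · intro h3
      refine mul_pos (div_pos ?_ (pow_pos (vF_pos 0 m) k)) hT
      unfold wF
      refine prod_pos fun p hp => ?_
      have hpp := (mem_pj.1 hp).2
      have h4 := hgood p hpp (h3 p hpp)
      have hp0 : (0 : ℝ) < p := by exact_mod_cast hpp.pos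
      have h5 : (rF f p (a p ω) : ℝ) < p := by exact_mod_cast h4
      have h6 : (rF f p (a p ω) : ℝ) / p < 1 := by
        rw [div_lt_one hp0]
        exact h5
      linarith

omit [MeasurableSpace Ω] in
open Classical in
/-- the counts -/
lemma sum_Fn (θ : ℝ) (f : Fin k → ℤ[X]) (x : ℕ) (ω : Ω) : ∑ n ∈ Ioc 0 x, Fn f (lev θ f n) a n ω =
    #((Icc 1 x).filter fun m : ℕ => ∀ i, ∀ p : ℕ, p.Prime → (p : ℝ) ≤ |(((f i).eval (m : ℤ) : ℤ) : ℝ)| ^ θ →
      ¬ (f i).eval (m : ℤ) ≡ (a p ω : ℤ) [ZMOD p]) := by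
  rw [card_filter]
  push_cast
  refine sum_congr rfl fun n _ => ?_
  unfold Fn
  have hcong : ∀ (p : ℕ) (u v : ℤ), u ≡ v [ZMOD p] ↔ (p : ℤ) ∣ u - v := by
    intro p u v
    rw [Int.modEq_iff_dvd]
    exact dvd_sub_comm
  have h1 : (∀ i, ∀ p : ℕ, p.Prime → (p : ℝ) ≤ |(((f i).eval (n : ℤ) : ℤ) : ℝ)| ^ θ →
      ¬ (f i).eval (n : ℤ) ≡ (a p ω : ℤ) [ZMOD p]) ↔
      ∀ p ∈ pr (univ.sup (lev θ f n)), ∀ i, p ≤ lev θ f n i → ¬ ((p : ℤ) ∣ (f i).eval (n : ℤ) - a p ω) := by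
    constructor
    · intro h p hp i hpi
      rw [← hcong]
      refine h i p (pr_prime hp) ?_
      exact (Nat.le_floor_iff (by positivity)).1 hpi
    · intro h i p hpp hp
      rw [hcong]
      have h2 : p ≤ lev θ f n i := (Nat.le_floor_iff (by positivity)).2 hp
      exact h p (mem_pr.2 ⟨h2.trans (le_sup (f := lev θ f n) (mem_univ i)), hpp⟩) i h2
  by_cases h2 : ∀ i, ∀ p : ℕ, p.Prime → (p : ℝ) ≤ |(((f i).eval (n : ℤ) : ℤ) : ℝ)| ^ θ →
      ¬ (f i).eval (n : ℤ) ≡ (a p ω : ℤ) [ZMOD p]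
  · rw [if_pos h2]
    refine prod_eq_one fun p hp => ?_
    unfold sv
    rw [if_pos (h1.1 h2 p hp)]
  · rw [if_neg h2]
    rw [h1] at h2
    push Not at h2
    obtain ⟨p, hp, i, h3, h4⟩ := h2
    refine prod_eq_zero hp ?_
    unfold sv
    rw [if_neg]
    push Not
    exact ⟨i, h3, h4⟩

end Pool.Agent.L5helper2.BH
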